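import Mathlib

set_option autoImplicit false

/-!
# The correlation map
-/

namespace Pool.Agent.V5helper20.CM

open Filter Topology

/-- the row `a` minus its mean -/
noncomputable def centred {ι : Type*} [Fintype ι] (a : ι → ℝ) (k : ι) : ℝ :=
  a k - (∑ l, a l) / Fintype.card ι

/-- the correlation map: the matrix of the Pearson correlation coefficients of the rows of `A` -/
noncomputable def corr {ι : Type*} [Fintype ι] (A : Matrix ι ι ℝ) : Matrix ι ι ℝ :=
  Matrix.of fun i j => (∑ k, centred (A i) k * centred (A j) k) /
    (√(∑ k, centred (A i) k ^ 2) * √(∑ k, centred (A j) k ^ 2))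

/-- the correlation matrices without constant row -/
structure Nondegenerate {ι : Type*} [Fintype ι] (A : Matrix ι ι ℝ) : Prop where
  posSemidef : A.PosSemidef
  diag : ∀ i, A i i = 1
  row : ∀ i, ¬ ∃ c, ∀ j, A i j = c

/-- the set of accumulation points of the orbit of `A` -/
def omega {ι : Type*} [Fintype ι] (A : Matrix ι ι ℝ) : Set (Matrix ι ι ℝ) :=
  {L | MapClusterPt L atTop fun k : ℕ => corr^[k] A}

end Pool.Agent.V5helper20.CM
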