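import Pool.Agent.V5helper20.CM.Main
import Pool.Agent.V5helper20.CM.Def

set_option autoImplicit false

/-!
# A family of correlation matrices which is invariant under the correlation map
-/

namespace Pool.Agent.V5helper20.CM

open Filter Topology

theorem sum_centred {ι : Type*} [Fintype ι] [Nonempty ι] (a b : ι → ℝ) :
    ∑ k, centred a k * centred b k = ∑ k, a k * b k - (∑ k, a k) * (∑ k, b k) /
      Fintype.card ι := by
  have hn : (Fintype.card ι : ℝ) ≠ 0 := by
    exact_mod_cast Fintype.card_ne_zero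
  obtain ⟨x, hx⟩ : ∃ x, x = ∑ k, a k := ⟨_, rfl⟩
  obtain ⟨y, hy⟩ : ∃ y, y = ∑ k, b k := ⟨_, rfl⟩
  unfold centred
  rw [← hx, ← hy]
  have h1 : ∀ k, (a k - x / Fintype.card ι) * (b k - y / Fintype.card ι) =
      a k * b k - a k * (y / Fintype.card ι) - (x / Fintype.card ι) * b k +
        x * y / (Fintype.card ι) ^ 2 := by
    intro k
    field_simp
    ring
  simp only [h1, Finset.sum_add_distrib, Finset.sum_sub_distrib, ← Finset.sum_mul,
    ← Finset.mul_sum, Finset.sum_const, Finset.card_univ, nsmul_eq_mul]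
  rw [← hx, ← hy]
  field_simp
  ring

theorem corr_reindex {ι κ : Type*} [Fintype ι] [Fintype κ] (e : κ ≃ ι) (A : Matrix ι ι ℝ) :
    corr (A.submatrix e e) = (corr A).submatrix e e := by
  have h1 : ∀ (a : ι → ℝ) (k : κ), centred (fun l => a (e l)) k = centred a (e k) := by
    intro a k
    unfold centred
    rw [Equiv.sum_comp e a, Fintype.card_congr e]
  have h2 : ∀ i j, ∑ k, centred (A.submatrix e e i) k * centred (A.submatrix e e j) k =
      ∑ k, centred (A (e i)) k * centred (A (e j)) k := by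
    intro i j
    rw [← Equiv.sum_comp e (fun k => centred (A (e i)) k * centred (A (e j)) k)]
    refine Finset.sum_congr rfl fun k _ => ?_
    rw [← h1, ← h1]
    rfl
  have h3 : ∀ i, ∑ k, centred (A.submatrix e e i) k ^ 2 = ∑ k, centred (A (e i)) k ^ 2 := by
    intro i
    simp only [sq]
    exact h2 i i
  ext i j
  simp only [corr, Matrix.of_apply, Matrix.submatrix_apply]
  rw [h3, h3, ← h2]

/-- the sign -/
noncomputable def sg (s : Bool) : ℝ := if s then 1 else -1

theorem sg_true : sg true = 1 := by simp [sg]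

theorem sg_false : sg false = -1 := by simp [sg]

theorem sg_sq (s : Bool) : sg s * sg s = 1 := by
  cases s <;> simp [sg]

/-- the index set: classes `c`, signs and copies -/
abbrev Ix (m : Fin 7 × Bool → ℕ) := Σ x : Fin 7 × Bool, Fin (m x)

/-- Gram matrix of the vectors with first coordinate `t c` and coordinate number `c` equal to
plus or minus `s c` -/
noncomputable def Gm (m : Fin 7 × Bool → ℕ) (t s : Fin 7 → ℝ) : Matrix (Ix m) (Ix m) ℝ :=
  Matrix.of fun i j => t i.1.1 * t j.1.1 +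
    if i.1.1 = j.1.1 then (sg i.1.2 * s i.1.1) * (sg j.1.2 * s j.1.1) else 0

theorem sum_Ix (m : Fin 7 × Bool → ℕ) (g : Fin 7 × Bool → ℝ) :
    ∑ i : Ix m, g i.1 = ∑ x, m x * g x := by
  rw [Fintype.sum_sigma]
  refine Finset.sum_congr rfl fun x _ => ?_
  simp

theorem card_Ix (m : Fin 7 × Bool → ℕ) : (Fintype.card (Ix m) : ℝ) = ∑ x, (m x : ℝ) := by
  simp [Ix]

/-- sum of the first coordinates -/
noncomputable def T1 (m : Fin 7 × Bool → ℕ) (t : Fin 7 → ℝ) : ℝ := ∑ x, m x * t x.1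
/-- sum of their squares -/
noncomputable def T2 (m : Fin 7 × Bool → ℕ) (t : Fin 7 → ℝ) : ℝ := ∑ x, m x * t x.1 ^ 2

theorem sum_cls (m : Fin 7 × Bool → ℕ) (g : Fin 7 × Bool → ℝ) (c : Fin 7) :
    ∑ x, (m x : ℝ) * (if c = x.1 then g x else 0) =
      m (c, true) * g (c, true) + m (c, false) * g (c, false) := by
  rw [Fintype.sum_prod_type]
  rw [Finset.sum_eq_single c]
  · simp
  · intro b _ hb
    simp [Ne.symm hb]
  · intro h
    exact absurd (Finset.mem_univ c) h

variable {m : Fin 7 × Bool → ℕ} {t s : Fin 7 → ℝ}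

theorem row_sum (hm : ∀ c, s c * ((m (c, true) : ℝ) - m (c, false)) = 0) (i : Ix m) :
    ∑ j, Gm m t s i j = t i.1.1 * T1 m t := by
  have h1 : ∀ j : Ix m, Gm m t s i j = (fun x : Fin 7 × Bool => t i.1.1 * t x.1 +
      if i.1.1 = x.1 then (sg i.1.2 * s i.1.1) * (sg x.2 * s x.1) else 0) j.1 := fun j => rfl
  simp only [h1]
  rw [sum_Ix m (fun x : Fin 7 × Bool => t i.1.1 * t x.1 +
      if i.1.1 = x.1 then (sg i.1.2 * s i.1.1) * (sg x.2 * s x.1) else 0)]
  simp only [mul_add, Finset.sum_add_distrib]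
  rw [sum_cls m (fun x => (sg i.1.2 * s i.1.1) * (sg x.2 * s x.1))]
  have h2 := hm i.1.1
  have h3 : (m (i.1.1, true) : ℝ) * (sg i.1.2 * s i.1.1 * (sg true * s i.1.1)) +
      m (i.1.1, false) * (sg i.1.2 * s i.1.1 * (sg false * s i.1.1)) =
      sg i.1.2 * s i.1.1 * (s i.1.1 * ((m (i.1.1, true) : ℝ) - m (i.1.1, false))) := by
    rw [sg_true, sg_false]
    ring
  rw [h3, h2, mul_zero, add_zero, T1, Finset.mul_sum]
  refine Finset.sum_congr rfl fun x _ => ?_
  ring

/-- the variance of class `c` in its own direction -/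
noncomputable def Sc (m : Fin 7 × Bool → ℕ) (s : Fin 7 → ℝ) (c : Fin 7) : ℝ :=
  s c ^ 2 * (m (c, true) + m (c, false))

theorem row_inner (hm : ∀ c, s c * ((m (c, true) : ℝ) - m (c, false)) = 0) (i k : Ix m) :
    ∑ j, Gm m t s i j * Gm m t s k j = t i.1.1 * t k.1.1 * T2 m t +
      if i.1.1 = k.1.1 then (sg i.1.2 * s i.1.1) * (sg k.1.2 * s k.1.1) * Sc m s i.1.1 else 0 := by
  have h1 : ∀ j : Ix m, Gm m t s i j * Gm m t s k j = (fun x : Fin 7 × Bool =>
      t i.1.1 * t k.1.1 * t x.1 ^ 2 +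
      (if i.1.1 = x.1 then t k.1.1 * t x.1 * ((sg i.1.2 * s i.1.1) * (sg x.2 * s x.1)) else 0) +
      (if k.1.1 = x.1 then t i.1.1 * t x.1 * ((sg k.1.2 * s k.1.1) * (sg x.2 * s x.1)) else 0) +
      (if i.1.1 = x.1 then (if i.1.1 = k.1.1 then (sg i.1.2 * s i.1.1) * (sg k.1.2 * s k.1.1) *
        (s x.1 * s x.1) else 0) else 0)) j.1 := by
    intro j
    have h2 : sg j.1.2 * sg j.1.2 = 1 := sg_sq _
    simp only [Gm, Matrix.of_apply]
    by_cases h3 : i.1.1 = j.1.1
    · by_cases h4 : k.1.1 = j.1.1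
      · have h5 : i.1.1 = k.1.1 := h3.trans h4.symm
        rw [if_pos h3, if_pos h4, if_pos h3, if_pos h4, if_pos h3, if_pos h5]
        linear_combination (sg i.1.2 * s i.1.1) * (sg k.1.2 * s k.1.1) *
          (s j.1.1 * s j.1.1) * h2
      · have h5 : ¬ i.1.1 = k.1.1 := fun h => h4 (h.symm.trans h3)
        rw [if_pos h3, if_neg h4, if_pos h3, if_neg h4, if_pos h3, if_neg h5]
        ring
    · by_cases h4 : k.1.1 = j.1.1
      · rw [if_neg h3, if_pos h4, if_neg h3, if_pos h4, if_neg h3]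
        ring
      · rw [if_neg h3, if_neg h4, if_neg h3, if_neg h4, if_neg h3]
        ring
  simp only [h1]
  rw [sum_Ix m (fun x : Fin 7 × Bool =>
      t i.1.1 * t k.1.1 * t x.1 ^ 2 +
      (if i.1.1 = x.1 then t k.1.1 * t x.1 * ((sg i.1.2 * s i.1.1) * (sg x.2 * s x.1)) else 0) +
      (if k.1.1 = x.1 then t i.1.1 * t x.1 * ((sg k.1.2 * s k.1.1) * (sg x.2 * s x.1)) else 0) +
      (if i.1.1 = x.1 then (if i.1.1 = k.1.1 then (sg i.1.2 * s i.1.1) * (sg k.1.2 * s k.1.1) *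
        (s x.1 * s x.1) else 0) else 0))]
  simp only [mul_add, Finset.sum_add_distrib]
  rw [sum_cls m (fun x => t k.1.1 * t x.1 * ((sg i.1.2 * s i.1.1) * (sg x.2 * s x.1))),
    sum_cls m (fun x => t i.1.1 * t x.1 * ((sg k.1.2 * s k.1.1) * (sg x.2 * s x.1))),
    sum_cls m (fun x => if i.1.1 = k.1.1 then (sg i.1.2 * s i.1.1) * (sg k.1.2 * s k.1.1) *
        (s x.1 * s x.1) else 0)]
  have h2 := hm i.1.1
  have h3 := hm k.1.1
  have e1 : (m (i.1.1, true) : ℝ) * (t k.1.1 * t i.1.1 * ((sg i.1.2 * s i.1.1) *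
      (sg true * s i.1.1))) + m (i.1.1, false) * (t k.1.1 * t i.1.1 * ((sg i.1.2 * s i.1.1) *
      (sg false * s i.1.1))) = 0 := by
    rw [sg_true, sg_false]
    linear_combination (t k.1.1 * t i.1.1 * sg i.1.2 * s i.1.1) * h2
  have e2 : (m (k.1.1, true) : ℝ) * (t i.1.1 * t k.1.1 * ((sg k.1.2 * s k.1.1) *
      (sg true * s k.1.1))) + m (k.1.1, false) * (t i.1.1 * t k.1.1 * ((sg k.1.2 * s k.1.1) *
      (sg false * s k.1.1))) = 0 := by
    rw [sg_true, sg_false]
    linear_combination (t i.1.1 * t k.1.1 * sg k.1.2 * s k.1.1) * h3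
  rw [e1, e2, add_zero, add_zero]
  congr 1
  · rw [T2, Finset.mul_sum]
    refine Finset.sum_congr rfl fun x _ => ?_
    ring
  · by_cases h5 : i.1.1 = k.1.1
    · rw [if_pos h5, if_pos h5, Sc]
      ring
    · rw [if_neg h5, if_neg h5]
      ring

end Pool.Agent.V5helper20.CM
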