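import Pool.Agent.V5helper20.CM.Taylor

set_option autoImplicit false

/-!
# Data of the Lyapunov function and the kernel checks
-/

namespace Pool.Agent.V5helper20.CM

def LP : PL := [(0, 0, 1 / 3), (1, 0, 4 / 27), (2, 0, -4 / 81), (3, 0, 52 / 2187), (4, 0, -284 / 19683)]
def LR : PL := [(0, 0, -1 / 12), (0, 1, -143 / 3456), (0, 2, 7007 / 663552),
  (0, 3, -3007147 / 573308928), (0, 4, 2161979677 / 660451885056)]
def LX : PL := [(1, 0, 4 / 27), (2, 0, -4 / 81), (3, 0, 52 / 2187), (4, 0, -284 / 19683)]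
def LY : PL := [(0, 1, -143 / 3456), (0, 2, 7007 / 663552), (0, 3, -3007147 / 573308928),
  (0, 4, 2161979677 / 660451885056)]
def LV : PL := [(0, 0, 1), (1, 0, -68 / 405), (0, 1, 293 / 6480), (2, 0, 333836 / 3444525),
  (1, 1, 24893 / 3444525), (0, 2, -8854399 / 881798400), (3, 0, -560572 / 10333575),
  (2, 1, -24893 / 10333575), (1, 2, -174251 / 94478400), (0, 3, 7508621 / 1511654400),
  (4, 0, 271412 / 7971615), (3, 1, 323609 / 279006525), (2, 2, 174251 / 283435200),
  (1, 3, 523474897 / 571405363200), (0, 4, -90686209781 / 29255954595840)]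
def G1 : PL := [(1, 0, 382 / 405), (0, 1, 293 / 6480), (2, 0, 73961 / 3444525),
  (1, 1, 1583569 / 27556200), (0, 2, -8854399 / 881798400), (3, 0, 1078304 / 31000725),
  (2, 1, 754283 / 70858800), (1, 2, -51590537 / 3968092800), (0, 3, 7508621 / 1511654400),
  (4, 0, -4313216 / 279006525), (3, 1, -199144 / 279006525), (2, 2, -60716393 / 23808556800),
  (1, 3, 3677095717 / 571405363200), (0, 4, -90686209781 / 29255954595840)]
def G2 : PL := [(1, 0, -68 / 405), (0, 1, 3409 / 3240), (2, 0, 333836 / 3444525),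
  (1, 1, -2229853 / 13778100), (0, 2, 18708763 / 440899200), (3, 0, -560572 / 10333575),
  (2, 1, 11802839 / 124002900), (1, 2, 8465309 / 1984046400), (0, 3, -613292251 / 126978969600),
  (4, 0, 271412 / 7971615), (3, 1, -8523967 / 159432300), (2, 2, -6772637 / 5952139200),
  (1, 3, -509036957 / 571405363200), (0, 4, 268008713687 / 146279772979200)]
/-- the Lyapunov function -/
def LH : PL := [(2, 0, 68 / 405), (1, 1, -353 / 3240), (0, 2, 293 / 6480),
  (3, 0, -6833708017 / 13371646050), (2, 1, 10037896597 / 20375841600),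
  (1, 2, -7738816163 / 47543630400), (0, 3, 23974901021 / 1711570694400),
  (3, 1, 147940742871574507 / 1002682570828307040),
  (2, 2, -221097519383841908851 / 363639545687066019840),
  (1, 3, 4539638745763286773 / 13468131321743185920),
  (0, 4, -360955782775247559329 / 4363674548244792238080)]
/-- its quadratic part -/
def Lq : PL := [(2, 0, 68 / 405), (1, 1, -353 / 3240), (0, 2, 293 / 6480)]

/-- truncated powers -/
def powP (a : PL) : ℕ → PL
  | 0 => [(0, 0, 1)]
  | n + 1 => nrm (mulP (powP a n) a)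

/-- truncated composition -/
def compP (L A B : PL) : PL := L.flatMap fun t => scP t.2.2 (nrm (mulP (powP A t.1) (powP B t.2.1)))

def LL : PL := scP (9 / 2) LX ++ scP (144 / 143) LY
def EV : PL := [(0, 0, 1)] ++ scP (-17 / 15) LX ++ scP (-2344 / 2145) LY ++
  scP (9 / 2) (mulP LX LX) ++ scP (144 / 143) (mulP LY LY) ++ scP (-49786 / 382725) (mulP LL LL)

theorem chkP : van (mulP (mulP LP LP) [(0, 0, 9), (1, 0, 1)] ++ [(0, 0, -1), (1, 0, -1)]) = true := by
  decide +kernel

theorem chkR : van (mulP (mulP LR LR) [(0, 0, 144), (0, 1, 1)] ++ [(0, 0, -1), (0, 1, -1)]) = true := by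
  decide +kernel

theorem chkX : van ((LP ++ [(0, 0, -1 / 3)]) ++ scP (-1) LX) = true := by
  decide +kernel

theorem chkY : van ((LR ++ [(0, 0, 1 / 12)]) ++ scP (-1) LY) = true := by
  decide +kernel

theorem chkV : van (EV ++ scP (-1) LV) = true := by
  decide +kernel

theorem chkG1 : van ((mulP [(0, 0, 1), (1, 0, 10 / 9), (2, 0, 1 / 9)] LV ++ [(0, 0, -1)]) ++
    scP (-1) G1) = true := by
  decide +kernel

theorem chkG2 : van ((mulP [(0, 0, 1), (0, 1, 145 / 144), (0, 2, 1 / 144)] LV ++ [(0, 0, -1)]) ++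
    scP (-1) G2) = true := by
  decide +kernel

theorem chkH : van (compP LH G1 G2 ++ scP (-1) LH ++
    scP (20920540457 / 133173603360) (mulP Lq Lq)) = true := by
  decide +kernel

end Pool.Agent.V5helper20.CM
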