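import Pool.Agent.V5helper20.CM.Joint

set_option autoImplicit false

/-!
# A forward invariant region without fixed points
-/

namespace Pool.Agent.V5helper20.CM

open Filter Asymptotics Topology

/-- the variance of the first coordinate for the weights `w` of the three classes -/
noncomputable def Vw (w : ℝ × ℝ × ℝ) (z : ℝ × ℝ) : ℝ :=
  w.1 + w.2.1 * pf z.1 ^ 2 + w.2.2 * rf z.2 ^ 2 - (w.1 + w.2.1 * pf z.1 + w.2.2 * rf z.2) ^ 2

/-- the reduced map for general weights -/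
noncomputable def Fw (w : ℝ × ℝ × ℝ) (z : ℝ × ℝ) : ℝ × ℝ :=
  (Vw w z * ((1 + z.1) * (9 + z.1)) / (2 * w.2.1) - 1,
    Vw w z * ((1 + z.2) * (144 + z.2)) / (143 * w.2.2) - 1)

/-- the critical family of weights -/
noncomputable def wt (b : ℝ) : ℝ × ℝ × ℝ :=
  (b - b * (1 - b) * (11 / 21) * (405 / 286), 9 / 2 * (b * (1 - b) * (11 / 21)),
    144 / 143 * (b * (1 - b) * (11 / 21)))

theorem Vw_wt (b : ℝ) (z : ℝ × ℝ) : Vw (wt b) z = b * (1 - b) * (11 / 21) * vf b z := by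
  unfold Vw wt vf
  ring

theorem Fw_wt (b : ℝ) (hb : b * (1 - b) ≠ 0) (z : ℝ × ℝ) : Fw (wt b) z = f b z := by
  unfold Fw
  rw [Vw_wt]
  have h1 : b ≠ 0 := left_ne_zero_of_mul hb
  have h2 : 1 - b ≠ 0 := right_ne_zero_of_mul hb
  unfold wt f
  ext
  · simp only
    field_simp
  · simp only
    field_simp

theorem pf_cont {ξ : ℝ} (h : 9 + ξ ≠ 0) : ContinuousAt pf ξ := by
  unfold pf
  fun_prop (disch := assumption)

theorem rf_cont {η : ℝ} (h : 144 + η ≠ 0) : ContinuousAt rf η := by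
  unfold rf
  fun_prop (disch := assumption)

theorem ne9 {z : ℝ × ℝ} (h : ‖z‖ ≤ 1 / 2) : 9 + z.1 ≠ 0 := by
  have h1 := norm_fst_le z
  rw [Real.norm_eq_abs] at h1
  have h2 := abs_le.1 (h1.trans h)
  linarith [h2.1]

theorem ne144 {z : ℝ × ℝ} (h : ‖z‖ ≤ 1 / 2) : 144 + z.2 ≠ 0 := by
  have h1 := norm_snd_le z
  rw [Real.norm_eq_abs] at h1
  have h2 := abs_le.1 (h1.trans h)
  linarith [h2.1]

theorem pf_cont' {α : Type*} [TopologicalSpace α] {a : α} {g : α → ℝ × ℝ} (hg : ContinuousAt g a)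
    (h : ‖g a‖ ≤ 1 / 2) : ContinuousAt (fun x => pf (g x).1) a :=
  ContinuousAt.comp (f := fun x => (g x).1) (pf_cont (ne9 h)) (continuousAt_fst.comp hg)

theorem rf_cont' {α : Type*} [TopologicalSpace α] {a : α} {g : α → ℝ × ℝ} (hg : ContinuousAt g a)
    (h : ‖g a‖ ≤ 1 / 2) : ContinuousAt (fun x => rf (g x).2) a :=
  ContinuousAt.comp (f := fun x => (g x).2) (rf_cont (ne144 h)) (continuousAt_snd.comp hg)

theorem f_cont (b : ℝ) {z : ℝ × ℝ} (h : ‖z‖ ≤ 1 / 2) :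
    ContinuousAt (fun w : ℝ × (ℝ × ℝ) => f w.1 w.2) (b, z) := by
  have h1 := pf_cont' (a := (b, z)) (g := fun w : ℝ × (ℝ × ℝ) => w.2) continuousAt_snd h
  have h2 := rf_cont' (a := (b, z)) (g := fun w : ℝ × (ℝ × ℝ) => w.2) continuousAt_snd h
  unfold f vf
  fun_prop

theorem Fw_cont {w : ℝ × ℝ × ℝ} {z : ℝ × ℝ} (h : ‖z‖ ≤ 1 / 2) (hw1 : w.2.1 ≠ 0)
    (hw2 : w.2.2 ≠ 0) :
    ContinuousAt (fun x : (ℝ × ℝ × ℝ) × (ℝ × ℝ) => Fw x.1 x.2) (w, z) := by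
  have h1 := pf_cont' (a := (w, z)) (g := fun w : (ℝ × ℝ × ℝ) × (ℝ × ℝ) => w.2)
    continuousAt_snd h
  have h2 := rf_cont' (a := (w, z)) (g := fun w : (ℝ × ℝ × ℝ) × (ℝ × ℝ) => w.2)
    continuousAt_snd h
  have h3 : 2 * (w, z).1.2.1 ≠ 0 := by simpa using hw1
  have h4 : 143 * (w, z).1.2.2 ≠ 0 := by simpa using hw2
  unfold Fw Vw
  fun_prop (disch := assumption)

theorem pf_inj {x y : ℝ} (hx : |x| ≤ 1 / 2) (hy : |y| ≤ 1 / 2) (h : pf x = pf y) : x = y := by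
  have hx' := abs_le.1 hx
  have hy' := abs_le.1 hy
  have h1 : pf x ^ 2 = pf y ^ 2 := by rw [h]
  unfold pf at h1
  rw [Real.sq_sqrt (div_nonneg (by linarith) (by linarith)),
    Real.sq_sqrt (div_nonneg (by linarith) (by linarith)),
    div_eq_div_iff (by linarith) (by linarith)] at h1
  linarith

theorem rf_inj {x y : ℝ} (hx : |x| ≤ 1 / 2) (hy : |y| ≤ 1 / 2) (h : rf x = rf y) : x = y := by
  have hx' := abs_le.1 hx
  have hy' := abs_le.1 hy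
  have h1 : rf x ^ 2 = rf y ^ 2 := by rw [h]
  unfold rf at h1
  rw [neg_sq, neg_sq, Real.sq_sqrt (div_nonneg (by linarith) (by linarith)),
    Real.sq_sqrt (div_nonneg (by linarith) (by linarith)),
    div_eq_div_iff (by linarith) (by linarith)] at h1
  linarith

/-- the change of the two entries -/
noncomputable def gap (w : ℝ × ℝ × ℝ) (z : ℝ × ℝ) : ℝ :=
  |pf (Fw w z).1 - pf z.1| + |rf (Fw w z).2 - rf z.2|

theorem f_zero (b : ℝ) : f b 0 = 0 := by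
  have h1 : pf 0 = 1 / 3 := by
    unfold pf
    rw [show (1 + (0:ℝ)) / (9 + 0) = (1 / 3) ^ 2 by norm_num]
    exact Real.sqrt_sq (by norm_num)
  have h2 : rf 0 = -1 / 12 := by
    unfold rf
    rw [show (1 + (0:ℝ)) / (144 + 0) = (1 / 12) ^ 2 by norm_num]
    rw [Real.sqrt_sq (by norm_num)]
    norm_num
  unfold f vf
  simp only [Prod.fst_zero, Prod.snd_zero, h1, h2]
  ext <;> norm_num

theorem repel {b : ℝ} (hb : b < bc) (hq : ∀ z : ℝ × ℝ, 1 / 100 * ‖z‖ ^ 2 ≤ qb b z)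
    (C : ℝ) (δ : ℝ) (hδ : 0 < δ) (hJ : ∀ z : ℝ × ℝ, ‖z‖ < δ →
    |(f b z).1 - (Mb b z).1| ≤ C * ‖z‖ ^ 2 ∧ |(f b z).2 - (Mb b z).2| ≤ C * ‖z‖ ^ 2) :
    ∀ᶠ z : ℝ × ℝ in 𝓝 0, z ≠ 0 → qb b z < qb b (f b z) := by
  have hball : ∀ᶠ z : ℝ × ℝ in 𝓝 0, ‖z‖ < δ := by
    filter_upwards [Metric.ball_mem_nhds (0 : ℝ × ℝ) hδ] with z hz
    simpa using hz
  have o1 : (fun z => (f b z).1 - (Mb b z).1) =O[𝓝 0] fun z : ℝ × ℝ => ‖z‖ ^ 2 := by
    refine IsBigO.of_bound C ?_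
    filter_upwards [hball] with z hz
    rw [Real.norm_eq_abs, norm_pow, norm_norm]
    exact (hJ z hz).1
  have o2 : (fun z => (f b z).2 - (Mb b z).2) =O[𝓝 0] fun z : ℝ × ℝ => ‖z‖ ^ 2 := by
    refine IsBigO.of_bound C ?_
    filter_upwards [hball] with z hz
    rw [Real.norm_eq_abs, norm_pow, norm_norm]
    exact (hJ z hz).2
  have e1 : (fun z : ℝ × ℝ => z.1) =O[𝓝 0] fun z : ℝ × ℝ => ‖z‖ ^ 1 := by
    refine IsBigO.of_bound 1 (Eventually.of_forall fun z => ?_)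
    rw [pow_one, one_mul, norm_norm]
    exact norm_fst_le z
  have e2 : (fun z : ℝ × ℝ => z.2) =O[𝓝 0] fun z : ℝ × ℝ => ‖z‖ ^ 1 := by
    refine IsBigO.of_bound 1 (Eventually.of_forall fun z => ?_)
    rw [pow_one, one_mul, norm_norm]
    exact norm_snd_le z
  have m1 : (fun z => (Mb b z).1) =O[𝓝 0] fun z : ℝ × ℝ => ‖z‖ ^ 1 :=
    (e1.const_mul_left _).add (e2.const_mul_left _)
  have m2 : (fun z => (Mb b z).2) =O[𝓝 0] fun z : ℝ × ℝ => ‖z‖ ^ 1 :=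
    (e1.const_mul_left _).add (e2.const_mul_left _)
  have g1 : (fun z => (f b z).1) =O[𝓝 0] fun z : ℝ × ℝ => ‖z‖ ^ 1 := by
    refine ((o1.trans (pow_isBigO (k := 1) (by norm_num))).add m1).congr_left fun z => ?_
    ring
  have g2 : (fun z => (f b z).2) =O[𝓝 0] fun z : ℝ × ℝ => ‖z‖ ^ 1 := by
    refine ((o2.trans (pow_isBigO (k := 1) (by norm_num))).add m2).congr_left fun z => ?_
    ring
  have pw : ∀ {g h : ℝ × ℝ → ℝ}, (g =O[𝓝 0] fun z : ℝ × ℝ => ‖z‖ ^ 2) →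
      (h =O[𝓝 0] fun z : ℝ × ℝ => ‖z‖ ^ 1) →
      (fun z => g z * h z) =O[𝓝 0] fun z : ℝ × ℝ => ‖z‖ ^ 3 := fun hg hh =>
    (hg.mul hh).congr_right fun z => by ring
  have key : (fun z => qb b (f b z) - qb b (Mb b z)) =O[𝓝 0] fun z : ℝ × ℝ => ‖z‖ ^ 3 := by
    refine (((pw o1 (g1.add m1)).const_mul_left (4 / 3 * (b - 1 / 3))).add
      (((pw o1 g2).add (pw o2 m1)).const_mul_left (10 / 9 - 4 / 3 * (b - 1 / 3) - 145 / 144 -
      1 / 12 * (b + 1 / 12)))).add ((pw o2 (g2.add m2)).const_mul_left (1 / 12 * (b + 1 / 12)))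
      |>.congr_left fun z => ?_
    unfold qb
    ring
  obtain ⟨C', hC'⟩ := key.bound
  have hμ : 0 < 5 / 4 * (bc - b) * (1 / 100) := by
    have : 0 < bc - b := by linarith
    positivity
  have hC'' : ∀ᶠ z : ℝ × ℝ in 𝓝 0, |C'| * ‖z‖ < 5 / 4 * (bc - b) * (1 / 100) := by
    have : Tendsto (fun z : ℝ × ℝ => |C'| * ‖z‖) (𝓝 0) (𝓝 (|C'| * ‖(0 : ℝ × ℝ)‖)) :=
      (continuous_const.mul continuous_norm).continuousAt
    rw [norm_zero, mul_zero] at this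
    exact this.eventually_lt_const hμ
  filter_upwards [hC', hC''] with z h2 h3 hz
  rw [Real.norm_eq_abs, norm_pow, norm_norm] at h2
  have h5 := (abs_le.1 h2).1
  have hn : 0 < ‖z‖ := norm_pos_iff.2 hz
  have h6 : C' * ‖z‖ ^ 3 < 5 / 4 * (bc - b) * (1 / 100) * ‖z‖ ^ 2 := by
    have h7 : C' * ‖z‖ ^ 3 ≤ |C'| * ‖z‖ * ‖z‖ ^ 2 := by
      rw [mul_assoc, ← pow_succ']
      exact mul_le_mul_of_nonneg_right (le_abs_self C') (by positivity)
    exact h7.trans_lt (mul_lt_mul_of_pos_right h3 (by positivity))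
  rw [qb_Mb] at h5
  have h8 := hq z
  have h9 : 5 / 4 * (bc - b) * (1 / 100 * ‖z‖ ^ 2) ≤ 5 / 4 * (bc - b) * qb b z := by
    refine mul_le_mul_of_nonneg_left h8 ?_
    have : 0 < bc - b := by linarith
    positivity
  nlinarith

end Pool.Agent.V5helper20.CM
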