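import Pool.Agent.V5helper20.CM.Step

set_option autoImplicit false

/-!
# Orbits of the correlation map without limit
-/

namespace Pool.Agent.V5helper20.CM

open Filter Topology

/-- the factor of the Gram matrix -/
noncomputable def Xm (m : Fin 7 × Bool → ℕ) (t s : Fin 7 → ℝ) : Matrix (Ix m) (Option (Fin 7)) ℝ :=
  Matrix.of fun i o => match o with
    | none => t i.1.1
    | some c => if i.1.1 = c then sg i.1.2 * s i.1.1 else 0

theorem Gm_eq (m : Fin 7 × Bool → ℕ) (t s : Fin 7 → ℝ) :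
    Gm m t s = Xm m t s * (Xm m t s).conjTranspose := by
  ext i j
  rw [Matrix.mul_apply, Fintype.sum_option]
  simp only [Matrix.conjTranspose_apply, star_trivial, Xm, Matrix.of_apply, Gm]
  congr 1
  simp only [ite_mul, zero_mul, mul_ite, mul_zero]
  rw [Finset.sum_eq_single i.1.1]
  · by_cases h : i.1.1 = j.1.1
    · simp [h]
    · simp [h, Ne.symm h]
  · intro c _ hc
    simp [Ne.symm hc]
  · intro h
    exact absurd (Finset.mem_univ _) h

theorem Gm_psd (m : Fin 7 × Bool → ℕ) (t s : Fin 7 → ℝ) : (Gm m t s).PosSemidef := by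
  rw [Gm_eq]
  exact Matrix.posSemidef_self_mul_conjTranspose _

theorem one_of_z {z : ℝ × ℝ} (hz : ‖z‖ ≤ 1 / 2) (c : Fin 7) : tz z c ^ 2 + sz z c ^ 2 = 1 := by
  obtain ⟨k1, k2, k3, k4⟩ := pf_sq hz
  have hp : pf z.1 ^ 2 + sa z.1 ^ 2 = 1 := by
    unfold pf sa
    rw [Real.sq_sqrt (by positivity), Real.sq_sqrt (by positivity)]
    field_simp
    ring
  have hr : rf z.2 ^ 2 + sb z.2 ^ 2 = 1 := by
    unfold rf sb
    rw [neg_sq, Real.sq_sqrt (by positivity), Real.sq_sqrt (by positivity)]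
    field_simp
    ring
  have cases7 : ∀ c : Fin 7, c = 0 ∨ (c = 1 ∨ c = 2 ∨ c = 3 ∨ c = 4) ∨ c = 5 ∨ c = 6 := by
    decide
  rcases cases7 c with h | (h | h | h | h) | h | h <;> subst h
  · simp [tz, sz]
  · exact hp
  · exact hp
  · exact hp
  · exact hp
  · exact hr
  · simp [tz, sz]

theorem Gm_nondeg {a mA mB m0 : ℕ} (ha : 0 < a) (h0 : 0 < m0) {z : ℝ × ℝ} (hz : ‖z‖ ≤ 1 / 2) :
    Nondegenerate (Gm (mu a mA mB m0) (tz z) (sz z)) := by
  have hd : ∀ i, Gm (mu a mA mB m0) (tz z) (sz z) i i = 1 := by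
    intro i
    simp only [Gm, Matrix.of_apply, if_true]
    have h1 := sg_sq i.1.2
    have h2 := one_of_z hz i.1.1
    linear_combination h2 + sz z i.1.1 ^ 2 * h1
  refine ⟨Gm_psd _ _ _, hd, ?_⟩
  rintro i ⟨c, hc⟩
  have h1 : c = 1 := by rw [← hc i]; exact hd i
  by_cases h : i.1.1 = 6
  · have h2 := hc ⟨(0, true), ⟨0, by simpa [mu] using ha⟩⟩
    simp only [Gm, Matrix.of_apply, h] at h2
    rw [if_neg (by decide)] at h2
    have h3 : tz z 6 = 0 := rfl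
    rw [h3, h1] at h2
    norm_num at h2
  · have h2 := hc ⟨(6, true), ⟨0, by simpa [mu] using h0⟩⟩
    simp only [Gm, Matrix.of_apply] at h2
    rw [if_neg h] at h2
    have h3 : tz z 6 = 0 := rfl
    rw [h3, h1] at h2
    norm_num at h2

theorem reindex_nondeg {ι κ : Type*} [Fintype ι] [Fintype κ] (e : κ ≃ ι) {A : Matrix ι ι ℝ}
    (h : Nondegenerate A) : Nondegenerate (A.submatrix e e) := by
  refine ⟨h.posSemidef.submatrix e, fun i => h.diag (e i), ?_⟩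
  rintro i ⟨c, hc⟩
  refine h.row (e i) ⟨c, fun j => ?_⟩
  have := hc (e.symm j)
  simpa using this

theorem iterate_reindex {ι κ : Type*} [Fintype ι] [Fintype κ] (e : κ ≃ ι) (A : Matrix ι ι ℝ)
    (k : ℕ) : corr^[k] (A.submatrix e e) = (corr^[k] A).submatrix e e := by
  induction k with
  | zero => rfl
  | succ k ih => rw [Function.iterate_succ_apply', Function.iterate_succ_apply', ih, corr_reindex]

theorem cont_tz (c : Fin 7) : ContinuousOn (fun z => tz z c) {z | ‖z‖ ≤ 1 / 2} := by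
  have hp : ContinuousOn (fun z : ℝ × ℝ => pf z.1) {z | ‖z‖ ≤ 1 / 2} := fun z hz =>
    (pf_cont' (a := z) (g := fun z => z) continuousAt_id hz).continuousWithinAt
  have hr : ContinuousOn (fun z : ℝ × ℝ => rf z.2) {z | ‖z‖ ≤ 1 / 2} := fun z hz =>
    (rf_cont' (a := z) (g := fun z => z) continuousAt_id hz).continuousWithinAt
  have cases7 : ∀ c : Fin 7, c = 0 ∨ (c = 1 ∨ c = 2 ∨ c = 3 ∨ c = 4) ∨ c = 5 ∨ c = 6 := by
    decide
  rcases cases7 c with h | (h | h | h | h) | h | h <;> subst h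
  · exact continuousOn_const
  · exact hp
  · exact hp
  · exact hp
  · exact hp
  · exact hr
  · exact continuousOn_const

theorem cont_sz (c : Fin 7) : ContinuousOn (fun z => sz z c) {z | ‖z‖ ≤ 1 / 2} := by
  have hp : ContinuousOn (fun z : ℝ × ℝ => sa z.1) {z | ‖z‖ ≤ 1 / 2} := by
    intro z hz
    have := ne9 hz
    unfold sa
    fun_prop (disch := assumption)
  have hr : ContinuousOn (fun z : ℝ × ℝ => sb z.2) {z | ‖z‖ ≤ 1 / 2} := by
    intro z hz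
    have := ne144 hz
    unfold sb
    fun_prop (disch := assumption)
  have cases7 : ∀ c : Fin 7, c = 0 ∨ (c = 1 ∨ c = 2 ∨ c = 3 ∨ c = 4) ∨ c = 5 ∨ c = 6 := by
    decide
  rcases cases7 c with h | (h | h | h | h) | h | h <;> subst h
  · exact continuousOn_const
  · exact hp
  · exact hp
  · exact hp
  · exact hp
  · exact hr
  · exact continuousOn_const

theorem cont_Gm (m : Fin 7 × Bool → ℕ) :
    ContinuousOn (fun z => Gm m (tz z) (sz z)) {z | ‖z‖ ≤ 1 / 2} := by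
  refine continuousOn_pi.2 fun i => continuousOn_pi.2 fun j => ?_
  simp only [Gm, Matrix.of_apply]
  refine ((cont_tz _).mul (cont_tz _)).add ?_
  by_cases h : i.1.1 = j.1.1
  · simp only [if_pos h]
    exact (continuousOn_const.mul (cont_sz _)).mul (continuousOn_const.mul (cont_sz _))
  · simp only [if_neg h]
    exact continuousOn_const

/-- the multiplicities for large `n` -/
theorem weights (w : ℝ × ℝ × ℝ) (h1 : 0 < w.1) (h2 : 0 < w.2.1) (h3 : 0 < w.2.2)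
    (h4 : w.1 + w.2.1 + w.2.2 < 1) {P : ℝ × ℝ × ℝ → Prop} (hP : ∀ᶠ v in 𝓝 w, P v) :
    ∃ N : ℕ, ∀ n ≥ N, ∃ a mA mB m0 : ℕ, 0 < a ∧ 0 < mA ∧ 0 < mB ∧ 0 < m0 ∧
      n = a + 8 * mA + 2 * mB + 2 * m0 ∧ P (ww a mA mB m0) := by
  obtain ⟨w0, hw0⟩ : ∃ w0, w0 = 1 - w.1 - w.2.1 - w.2.2 := ⟨_, rfl⟩
  have h0 : 0 < w0 := by linarith
  have tA : Tendsto (fun n : ℕ => (⌊w.2.1 / 8 * (n : ℝ)⌋₊ : ℝ) / n) atTop (𝓝 (w.2.1 / 8)) :=
    (tendsto_nat_floor_mul_div_atTop (by positivity)).comp tendsto_natCast_atTop_atTop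
  have tB : Tendsto (fun n : ℕ => (⌊w.2.2 / 2 * (n : ℝ)⌋₊ : ℝ) / n) atTop (𝓝 (w.2.2 / 2)) :=
    (tendsto_nat_floor_mul_div_atTop (by positivity)).comp tendsto_natCast_atTop_atTop
  have t0 : Tendsto (fun n : ℕ => (⌊w0 / 2 * (n : ℝ)⌋₊ : ℝ) / n) atTop (𝓝 (w0 / 2)) :=
    (tendsto_nat_floor_mul_div_atTop (by positivity)).comp tendsto_natCast_atTop_atTop
  have tW : Tendsto (fun n : ℕ => (1 - 8 * ((⌊w.2.1 / 8 * (n : ℝ)⌋₊ : ℝ) / n) -
      2 * ((⌊w.2.2 / 2 * (n : ℝ)⌋₊ : ℝ) / n) - 2 * ((⌊w0 / 2 * (n : ℝ)⌋₊ : ℝ) / n),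
      8 * ((⌊w.2.1 / 8 * (n : ℝ)⌋₊ : ℝ) / n), 2 * ((⌊w.2.2 / 2 * (n : ℝ)⌋₊ : ℝ) / n))) atTop
      (𝓝 (1 - 8 * (w.2.1 / 8) - 2 * (w.2.2 / 2) - 2 * (w0 / 2), 8 * (w.2.1 / 8),
        2 * (w.2.2 / 2))) := by
    refine Tendsto.prodMk_nhds ?_ (Tendsto.prodMk_nhds ?_ ?_)
    · exact ((tendsto_const_nhds.sub (tA.const_mul 8)).sub (tB.const_mul 2)).sub (t0.const_mul 2)
    · exact tA.const_mul 8
    · exact tB.const_mul 2
  have e : (1 - 8 * (w.2.1 / 8) - 2 * (w.2.2 / 2) - 2 * (w0 / 2), 8 * (w.2.1 / 8),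
        2 * (w.2.2 / 2)) = w := by
    refine Prod.ext ?_ (Prod.ext ?_ ?_)
    · simp only; rw [hw0]; ring
    · simp only; ring
    · simp only; ring
  rw [e] at tW
  have e1 := tW.eventually hP
  have pA : ∀ᶠ n : ℕ in atTop, 1 ≤ w.2.1 / 8 * (n : ℝ) :=
    (tendsto_natCast_atTop_atTop.const_mul_atTop (by positivity)).eventually_ge_atTop 1
  have pB : ∀ᶠ n : ℕ in atTop, 1 ≤ w.2.2 / 2 * (n : ℝ) :=
    (tendsto_natCast_atTop_atTop.const_mul_atTop (by positivity)).eventually_ge_atTop 1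
  have p0 : ∀ᶠ n : ℕ in atTop, 1 ≤ w0 / 2 * (n : ℝ) :=
    (tendsto_natCast_atTop_atTop.const_mul_atTop (by positivity)).eventually_ge_atTop 1
  have pn : ∀ᶠ n : ℕ in atTop, 0 < n := eventually_gt_atTop 0
  obtain ⟨N, hN⟩ := eventually_atTop.1 ((((e1.and pA).and pB).and p0).and pn)
  refine ⟨N, fun n hn => ?_⟩
  obtain ⟨⟨⟨⟨q1, q2⟩, q3⟩, q4⟩, q5⟩ := hN n hn
  obtain ⟨mA, hmA⟩ : ∃ mA, mA = ⌊w.2.1 / 8 * (n : ℝ)⌋₊ := ⟨_, rfl⟩
  obtain ⟨mB, hmB⟩ : ∃ mB, mB = ⌊w.2.2 / 2 * (n : ℝ)⌋₊ := ⟨_, rfl⟩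
  obtain ⟨m0, hm0⟩ : ∃ m0, m0 = ⌊w0 / 2 * (n : ℝ)⌋₊ := ⟨_, rfl⟩
  rw [← hmA, ← hmB, ← hm0] at q1
  have n0 : (0 : ℝ) < n := by exact_mod_cast q5
  have fA : (mA : ℝ) ≤ w.2.1 / 8 * n := by rw [hmA]; exact Nat.floor_le (by positivity)
  have fB : (mB : ℝ) ≤ w.2.2 / 2 * n := by rw [hmB]; exact Nat.floor_le (by positivity)
  have f0 : (m0 : ℝ) ≤ w0 / 2 * n := by rw [hm0]; exact Nat.floor_le (by positivity)
  have lt : (8 * mA + 2 * mB + 2 * m0 : ℝ) < n := by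
    have : (8 * mA + 2 * mB + 2 * m0 : ℝ) ≤ (w.2.1 + w.2.2 + w0) * n := by nlinarith
    have h5 : (w.2.1 + w.2.2 + w0) * n < 1 * n := by
      refine mul_lt_mul_of_pos_right ?_ n0
      rw [hw0]; linarith
    linarith
  have lt' : 8 * mA + 2 * mB + 2 * m0 < n := by exact_mod_cast lt
  obtain ⟨a, ha⟩ : ∃ a, a = n - (8 * mA + 2 * mB + 2 * m0) := ⟨_, rfl⟩
  have hn' : n = a + 8 * mA + 2 * mB + 2 * m0 := by omega
  refine ⟨a, mA, mB, m0, by omega, ?_, ?_, ?_, hn', ?_⟩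
  · rw [hmA]; exact Nat.floor_pos.2 q2
  · rw [hmB]; exact Nat.floor_pos.2 q3
  · rw [hm0]; exact Nat.floor_pos.2 q4
  · have e2 : nn a mA mB m0 = n := by
      rw [hn', nn]; push_cast; ring
    have e3 : (a : ℝ) = n - 8 * mA - 2 * mB - 2 * m0 := by
      rw [hn']; push_cast; ring
    have e4 : ww a mA mB m0 = (1 - 8 * ((mA : ℝ) / n) - 2 * ((mB : ℝ) / n) - 2 * ((m0 : ℝ) / n),
        8 * ((mA : ℝ) / n), 2 * ((mB : ℝ) / n)) := by
      rw [ww, e2, e3]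
      refine Prod.ext ?_ (Prod.ext ?_ ?_)
      · simp only; field_simp
      · simp only; ring
      · simp only; ring
    rw [e4]
    exact q1

theorem final : ∃ ε > 0, ∃ N : ℕ, ∀ n ≥ N, ∃ A : Matrix (Fin n) (Fin n) ℝ, Nondegenerate A ∧
    (∀ k : ℕ, ∃ i j, ε ≤ |(corr^[k + 1] A) i j - (corr^[k] A) i j|) ∧
    (¬ ∃ L, Tendsto (fun k : ℕ => corr^[k] A) atTop (𝓝 L)) ∧
    (omega A).Nontrivial ∧ ∀ B ∈ omega A, Nondegenerate B ∧ corr B ≠ B := by
  obtain ⟨w, K, c, h1, h2, h3, h4, hKc, ⟨z0, hz0⟩, hKn, hc, hev⟩ := dyn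
  obtain ⟨N, hN⟩ := weights w h1 h2 h3 h4 hev
  refine ⟨c / 2, by positivity, N, fun n hn => ?_⟩
  obtain ⟨a, mA, mB, m0, ha, hA, hB, h0, hn', hP⟩ := hN n hn
  obtain ⟨m, hm⟩ : ∃ m, m = mu a mA mB m0 := ⟨_, rfl⟩
  obtain ⟨F, hF⟩ : ∃ F, F = Fw (ww a mA mB m0) := ⟨_, rfl⟩
  have hcard : Fintype.card (Ix m) = n := by
    have h5 : ((Fintype.card (Ix m) : ℕ) : ℝ) = n := by
      rw [card_Ix, hm, mu_sum, nn, hn']
      push_cast
      ring
    exact_mod_cast h5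
  obtain ⟨e⟩ : Nonempty (Fin n ≃ Ix m) := ⟨(Fintype.equivFinOfCardEq hcard).symm⟩
  obtain ⟨G, hG⟩ : ∃ G : ℝ × ℝ → Matrix (Ix m) (Ix m) ℝ, G = fun z => Gm m (tz z) (sz z) :=
    ⟨_, rfl⟩
  have hstep : ∀ z ∈ K, corr (G z) = G (F z) := by
    intro z hz
    have h5 := hKn _ (hP z hz).1
    rw [hG, hm, hF]
    exact step ha hA hB h0 (hKn z hz) h5
  have hFK : ∀ z ∈ K, F z ∈ K := fun z hz => by rw [hF]; exact (hP z hz).1
  have hgap : ∀ z ∈ K, c < |pf (F z).1 - pf z.1| + |rf (F z).2 - rf z.2| := fun z hz => by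
    rw [hF]; exact (hP z hz).2
  have hGn : ∀ z ∈ K, Nondegenerate (G z) := fun z hz => by
    rw [hG, hm]; exact Gm_nondeg ha h0 (hKn z hz)
  have horb : ∀ k : ℕ, F^[k] z0 ∈ K ∧ corr^[k] (G z0) = G (F^[k] z0) := by
    intro k
    induction k with
    | zero => exact ⟨hz0, rfl⟩
    | succ k ih =>
      rw [Function.iterate_succ_apply', Function.iterate_succ_apply', ih.2]
      exact ⟨hFK _ ih.1, hstep _ ih.1⟩
  -- the two entries
  obtain ⟨i0, hi0⟩ : ∃ i0 : Ix m, i0.1 = (0, true) :=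
    ⟨⟨(0, true), ⟨0, by rw [hm]; simpa [mu] using ha⟩⟩, rfl⟩
  obtain ⟨i1, hi1⟩ : ∃ i1 : Ix m, i1.1 = (1, true) :=
    ⟨⟨(1, true), ⟨0, by rw [hm]; simpa [mu] using hA⟩⟩, rfl⟩
  obtain ⟨i5, hi5⟩ : ∃ i5 : Ix m, i5.1 = (5, true) :=
    ⟨⟨(5, true), ⟨0, by rw [hm]; simpa [mu] using hB⟩⟩, rfl⟩
  have en1 : ∀ z, G z i0 i1 = pf z.1 := by
    intro z
    rw [hG]
    simp only [Gm, Matrix.of_apply, hi0, hi1]
    rw [if_neg (by decide)]
    have e1 : tz z 0 = 1 := rfl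
    have e2 : tz z 1 = pf z.1 := rfl
    rw [e1, e2]; ring
  have en5 : ∀ z, G z i0 i5 = rf z.2 := by
    intro z
    rw [hG]
    simp only [Gm, Matrix.of_apply, hi0, hi5]
    rw [if_neg (by decide)]
    have e1 : tz z 0 = 1 := rfl
    have e2 : tz z 5 = rf z.2 := rfl
    rw [e1, e2]; ring
  obtain ⟨A, hAdef⟩ : ∃ A, A = (G z0).submatrix e e := ⟨_, rfl⟩
  have hit : ∀ k : ℕ, corr^[k] A = (G (F^[k] z0)).submatrix e e := by
    intro k
    rw [hAdef, iterate_reindex, (horb k).2]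
  have hdiff : ∀ k : ℕ, ∃ i j, c / 2 ≤ |(corr^[k + 1] A) i j - (corr^[k] A) i j| := by
    intro k
    have h5 := hgap _ (horb k).1
    rw [hit, hit, Function.iterate_succ_apply']
    by_cases h6 : c / 2 ≤ |pf (F (F^[k] z0)).1 - pf (F^[k] z0).1|
    · refine ⟨e.symm i0, e.symm i1, ?_⟩
      simp only [Matrix.submatrix_apply, Equiv.apply_symm_apply]
      rw [en1, en1]
      exact h6
    · refine ⟨e.symm i0, e.symm i5, ?_⟩
      simp only [Matrix.submatrix_apply, Equiv.apply_symm_apply]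
      rw [en5, en5]
      push Not at h6
      linarith
  have hno : ¬ ∃ L, Tendsto (fun k : ℕ => corr^[k] A) atTop (𝓝 L) := by
    rintro ⟨L, hL⟩
    have h5 := (hL.comp (tendsto_add_atTop_nat 1)).sub hL
    rw [sub_self] at h5
    have h6 : ∀ᶠ k : ℕ in atTop, ∀ i j, |(corr^[k + 1] A) i j - (corr^[k] A) i j| < c / 2 := by
      have h7 : ∀ i j, ∀ᶠ k : ℕ in atTop,
          |(corr^[k + 1] A) i j - (corr^[k] A) i j| < c / 2 := by
        intro i j
        have h8 := tendsto_pi_nhds.1 (tendsto_pi_nhds.1 h5 i) j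
        have h9 := h8.abs
        simp only [Matrix.zero_apply, abs_zero] at h9
        exact h9.eventually_lt_const (by positivity)
      filter_upwards [eventually_all.2 fun i => eventually_all.2 fun j => h7 i j] with k hk
      exact hk
    obtain ⟨k, hk⟩ := h6.exists
    obtain ⟨i, j, hij⟩ := hdiff k
    exact absurd (hk i j) (not_lt.2 hij)
  -- the compact set of matrices
  obtain ⟨K', hK'⟩ : ∃ K' : Set (Matrix (Fin n) (Fin n) ℝ),
      K' = (fun z => (G z).submatrix e e) '' K := ⟨_, rfl⟩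
  have hK'c : IsCompact K' := by
    rw [hK']
    refine hKc.image_of_continuousOn ?_
    have h5 : ContinuousOn G K := by
      rw [hG]
      exact (cont_Gm m).mono fun z hz => hKn z hz
    have h6 : Continuous fun M : Matrix (Ix m) (Ix m) ℝ => M.submatrix e e := by
      exact continuous_id.matrix_submatrix e e
    exact h6.comp_continuousOn h5
  have hmem : ∀ k : ℕ, corr^[k] A ∈ K' := by
    intro k
    rw [hit, hK']
    exact ⟨_, (horb k).1, rfl⟩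
  have homK : ∀ B ∈ omega A, B ∈ K' := by
    intro B hB
    by_contra hcon
    have h5 : K'ᶜ ∈ 𝓝 B := hK'c.isClosed.isOpen_compl.mem_nhds hcon
    have h6 : MapClusterPt B atTop fun k : ℕ => corr^[k] A := hB
    have h7 := h6.frequently h5
    obtain ⟨k, hk⟩ := h7.exists
    exact hk (hmem k)
  refine ⟨A, ?_, hdiff, hno, ?_, ?_⟩
  · rw [hAdef]
    exact reindex_nondeg e (hGn z0 hz0)
  · by_contra hcon
    rw [Set.not_nontrivial_iff] at hcon
    obtain ⟨B, hB1, hB2⟩ := hK'c.exists_mapClusterPt (f := atTop) (u := fun k : ℕ => corr^[k] A)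
      (by
        rw [le_principal_iff]
        exact Filter.mem_map.2 (Eventually.of_forall hmem))
    refine hno ⟨B, hK'c.tendsto_nhds_of_unique_mapClusterPt (Eventually.of_forall hmem) ?_⟩
    intro B' _ hB'
    exact hcon hB' hB2
  · intro B hB
    have h5 := homK B hB
    rw [hK'] at h5
    obtain ⟨z, hz, rfl⟩ := h5
    refine ⟨reindex_nondeg e (hGn z hz), fun heq => ?_⟩
    simp only at heq
    rw [corr_reindex, hstep z hz] at heq
    have h6 : ∀ i j, G (F z) i j = G z i j := by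
      intro i j
      have h7 := congrFun (congrFun heq (e.symm i)) (e.symm j)
      simpa using h7
    have h8 := hgap z hz
    have h9 := h6 i0 i1
    have h10 := h6 i0 i5
    rw [en1, en1] at h9
    rw [en5, en5] at h10
    rw [h9, h10, sub_self, sub_self, abs_zero] at h8
    linarith

end Pool.Agent.V5helper20.CM
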