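import Pool.Agent.V5helper20.CM.Trap

set_option autoImplicit false

/-!
# The linearisation, uniformly in the parameter
-/

namespace Pool.Agent.V5helper20.CM

open Filter Asymptotics Topology

/-- the size of the second component -/
noncomputable def Nn (w : ℝ × (ℝ × ℝ)) : ℝ := ‖w.2‖

/-- transport of an estimate -/
theorem lift {g : ℝ × ℝ → ℝ} {k : ℕ} (h : g =O[𝓝 0] fun z => ‖z‖ ^ k) :
    (fun w : ℝ × (ℝ × ℝ) => g w.2) =O[𝓝 bc ×ˢ 𝓝 0] fun w => Nn w ^ k :=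
  h.comp_tendsto (tendsto_snd (f := 𝓝 bc) (g := 𝓝 (0 : ℝ × ℝ)))

theorem fx : (fun w : ℝ × (ℝ × ℝ) => pf w.2.1 - 1 / 3) =O[𝓝 bc ×ˢ 𝓝 0] fun w => Nn w ^ 1 :=
  lift (g := fun z => pf z.1 - 1 / 3) (tm_x.order 1 (by norm_num) (by
    intro t ht
    simp only [LX, List.mem_cons, List.not_mem_nil, or_false] at ht
    rcases ht with h | h | h | h <;> subst h <;> norm_num))

theorem fy : (fun w : ℝ × (ℝ × ℝ) => rf w.2.2 + 1 / 12) =O[𝓝 bc ×ˢ 𝓝 0] fun w => Nn w ^ 1 :=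
  lift (g := fun z => rf z.2 + 1 / 12) (tm_y.order 1 (by norm_num) (by
    intro t ht
    simp only [LY, List.mem_cons, List.not_mem_nil, or_false] at ht
    rcases ht with h | h | h | h <;> subst h <;> norm_num))

theorem fex : (fun w : ℝ × (ℝ × ℝ) => pf w.2.1 - 1 / 3 - 4 / 27 * w.2.1) =O[𝓝 bc ×ˢ 𝓝 0]
    fun w => Nn w ^ 2 := by
  refine lift (g := fun z => pf z.1 - 1 / 3 - 4 / 27 * z.1) ?_
  have h1 : TM (fun z => pf z.1 - 1 / 3 - 4 / 27 * z.1) (LX.drop 1) := by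
    refine IsBigO.congr_left tm_x fun z => ?_
    simp only [LX, List.drop_succ_cons, List.drop_zero, ev_cons, ev_nil, mo]
    push_cast
    ring
  exact h1.order 2 (by norm_num) (by
    intro t ht
    simp only [LX, List.drop_succ_cons, List.drop_zero, List.mem_cons, List.not_mem_nil,
      or_false] at ht
    rcases ht with h | h | h <;> subst h <;> norm_num)

theorem fey : (fun w : ℝ × (ℝ × ℝ) => rf w.2.2 + 1 / 12 + 143 / 3456 * w.2.2) =O[𝓝 bc ×ˢ 𝓝 0]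
    fun w => Nn w ^ 2 := by
  refine lift (g := fun z => rf z.2 + 1 / 12 + 143 / 3456 * z.2) ?_
  have h1 : TM (fun z => rf z.2 + 1 / 12 + 143 / 3456 * z.2) (LY.drop 1) := by
    refine IsBigO.congr_left tm_y fun z => ?_
    simp only [LY, List.drop_succ_cons, List.drop_zero, ev_cons, ev_nil, mo]
    push_cast
    ring
  exact h1.order 2 (by norm_num) (by
    intro t ht
    simp only [LY, List.drop_succ_cons, List.drop_zero, List.mem_cons, List.not_mem_nil,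
      or_false] at ht
    rcases ht with h | h | h <;> subst h <;> norm_num)

theorem f1 : (fun w : ℝ × (ℝ × ℝ) => w.2.1) =O[𝓝 bc ×ˢ 𝓝 0] fun w => Nn w ^ 1 := by
  refine IsBigO.of_bound 1 (Eventually.of_forall fun w => ?_)
  rw [pow_one, one_mul, Nn, norm_norm]
  exact norm_fst_le w.2

theorem f2 : (fun w : ℝ × (ℝ × ℝ) => w.2.2) =O[𝓝 bc ×ˢ 𝓝 0] fun w => Nn w ^ 1 := by
  refine IsBigO.of_bound 1 (Eventually.of_forall fun w => ?_)
  rw [pow_one, one_mul, Nn, norm_norm]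
  exact norm_snd_le w.2

/-- coefficients depending on the parameter are bounded -/
theorem fc {c : ℝ → ℝ} (hc : Continuous c) : (fun w : ℝ × (ℝ × ℝ) => c w.1) =O[𝓝 bc ×ˢ 𝓝 0]
    fun _ => (1 : ℝ) :=
  ((hc.continuousAt (x := bc)).isBigO_one ℝ).comp_tendsto tendsto_fst

theorem down {g : ℝ × (ℝ × ℝ) → ℝ} {k m : ℕ} (h : g =O[𝓝 bc ×ˢ 𝓝 0] fun w => Nn w ^ m)
    (hk : k ≤ m) : g =O[𝓝 bc ×ˢ 𝓝 0] fun w => Nn w ^ k :=
  h.trans (lift (g := fun z => ‖z‖ ^ m) (pow_isBigO hk))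

theorem mulc {c : ℝ → ℝ} (hc : Continuous c) {g : ℝ × (ℝ × ℝ) → ℝ} {k : ℕ}
    (h : g =O[𝓝 bc ×ˢ 𝓝 0] fun w => Nn w ^ k) :
    (fun w => c w.1 * g w) =O[𝓝 bc ×ˢ 𝓝 0] fun w => Nn w ^ k :=
  ((fc hc).mul h).congr_right fun w => one_mul _

theorem mulp {g h : ℝ × (ℝ × ℝ) → ℝ} {k m : ℕ} (hg : g =O[𝓝 bc ×ˢ 𝓝 0] fun w => Nn w ^ k)
    (hh : h =O[𝓝 bc ×ˢ 𝓝 0] fun w => Nn w ^ m) :
    (fun w => g w * h w) =O[𝓝 bc ×ˢ 𝓝 0] fun w => Nn w ^ (k + m) :=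
  (hg.mul hh).congr_right fun w => (pow_add _ _ _).symm

/-- the quadratic part of the normalised variance -/
theorem fv2 : (fun w : ℝ × (ℝ × ℝ) => 9 / 2 * (pf w.2.1 - 1 / 3) ^ 2 +
    144 / 143 * (rf w.2.2 + 1 / 12) ^ 2 - w.1 * (1 - w.1) * (11 / 21) *
    (9 / 2 * (pf w.2.1 - 1 / 3) + 144 / 143 * (rf w.2.2 + 1 / 12)) ^ 2) =O[𝓝 bc ×ˢ 𝓝 0]
    fun w => Nn w ^ 2 := by
  have h1 := (mulp fx fx).const_mul_left (9 / 2)
  have h2 := (mulp fy fy).const_mul_left (144 / 143)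
  have h3 := (fx.const_mul_left (9 / 2)).add (fy.const_mul_left (144 / 143))
  have h4 := mulc (c := fun b => b * (1 - b) * (11 / 21)) (by fun_prop) (mulp h3 h3)
  refine ((h1.add h2).sub h4).congr_left fun w => ?_
  ring

theorem fv1 : (fun w : ℝ × (ℝ × ℝ) => 9 * (1 / 3 - w.1) * (pf w.2.1 - 1 / 3) +
    288 / 143 * (-1 / 12 - w.1) * (rf w.2.2 + 1 / 12)) =O[𝓝 bc ×ˢ 𝓝 0] fun w => Nn w ^ 1 :=
  (mulc (c := fun b => 9 * (1 / 3 - b)) (by fun_prop) fx).add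
    (mulc (c := fun b => 288 / 143 * (-1 / 12 - b)) (by fun_prop) fy)

theorem fvl : (fun w : ℝ × (ℝ × ℝ) => 9 * (1 / 3 - w.1) * (pf w.2.1 - 1 / 3 - 4 / 27 * w.2.1) +
    288 / 143 * (-1 / 12 - w.1) * (rf w.2.2 + 1 / 12 + 143 / 3456 * w.2.2)) =O[𝓝 bc ×ˢ 𝓝 0]
    fun w => Nn w ^ 2 :=
  (mulc (c := fun b => 9 * (1 / 3 - b)) (by fun_prop) fex).add
    (mulc (c := fun b => 288 / 143 * (-1 / 12 - b)) (by fun_prop) fey)

theorem fvt : (fun w : ℝ × (ℝ × ℝ) => vf w.1 w.2 - 1) =O[𝓝 bc ×ˢ 𝓝 0] fun w => Nn w ^ 1 := by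
  refine (fv1.add (down fv2 (k := 1) (by norm_num))).congr_left fun w => ?_
  unfold vf
  ring

theorem j1 : (fun w : ℝ × (ℝ × ℝ) => (f w.1 w.2).1 - (Mb w.1 w.2).1) =O[𝓝 bc ×ˢ 𝓝 0]
    fun w => Nn w ^ 2 := by
  have h1 := (mulp f1 f1).const_mul_left (1 / 9)
  have h2 := (mulp f1 fvt).const_mul_left (10 / 9)
  have h3 := (down (mulp (mulp f1 f1) fvt) (k := 2) (by norm_num)).const_mul_left (1 / 9)
  refine ((((h1.add fvl).add fv2).add h2).add h3).congr_left fun w => ?_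
  unfold f Mb vf
  ring

theorem j2 : (fun w : ℝ × (ℝ × ℝ) => (f w.1 w.2).2 - (Mb w.1 w.2).2) =O[𝓝 bc ×ˢ 𝓝 0]
    fun w => Nn w ^ 2 := by
  have h1 := (mulp f2 f2).const_mul_left (1 / 144)
  have h2 := (mulp f2 fvt).const_mul_left (145 / 144)
  have h3 := (down (mulp (mulp f2 f2) fvt) (k := 2) (by norm_num)).const_mul_left (1 / 144)
  refine ((((h1.add fvl).add fv2).add h2).add h3).congr_left fun w => ?_
  unfold f Mb vf
  ring

/-- the linearisation with a uniform error -/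
theorem joint : ∃ C > 0, ∃ δ > 0, ∀ b, |b - bc| < δ → ∀ z : ℝ × ℝ, ‖z‖ < δ →
    |(f b z).1 - (Mb b z).1| ≤ C * ‖z‖ ^ 2 ∧ |(f b z).2 - (Mb b z).2| ≤ C * ‖z‖ ^ 2 := by
  obtain ⟨C1, h1⟩ := j1.bound
  obtain ⟨C2, h2⟩ := j2.bound
  have h3 := h1.and h2
  rw [← nhds_prod_eq, Metric.eventually_nhds_iff] at h3
  obtain ⟨δ, hδ, h3⟩ := h3
  refine ⟨max (max C1 C2) 1, by positivity, δ, hδ, fun b hb z hz => ?_⟩
  have h4 : dist (b, z) (bc, (0 : ℝ × ℝ)) < δ := by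
    rw [Prod.dist_eq, max_lt_iff]
    exact ⟨by rwa [Real.dist_eq], by rwa [dist_zero_right]⟩
  obtain ⟨h5, h6⟩ := h3 h4
  simp only [Nn, norm_pow, Real.norm_eq_abs, abs_norm] at h5 h6
  have hz2 : 0 ≤ ‖z‖ ^ 2 := by positivity
  constructor
  · refine h5.trans (mul_le_mul_of_nonneg_right ?_ hz2)
    exact (le_max_left _ _).trans (le_max_left _ _)
  · refine h6.trans (mul_le_mul_of_nonneg_right ?_ hz2)
    exact (le_max_right _ _).trans (le_max_left _ _)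

end Pool.Agent.V5helper20.CM
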