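import Pool.Agent.V5helper20.CM.Data

set_option autoImplicit false

/-!
# The reduced map near its fixed point
-/

namespace Pool.Agent.V5helper20.CM

open Filter Asymptotics Topology

theorem TM.change {f : ℝ × ℝ → ℝ} {a b : PL} (hf : TM f a) (h : van (a ++ scP (-1) b) = true) :
    TM f b := by
  have h1 := (TM.self (a ++ scP (-1) b)).of_van h
  refine (IsBigO.add hf h1).congr_left fun z => ?_
  rw [ev_append, ev_sc]
  push_cast
  ring

theorem ev_isBigO (l : PL) (k : ℕ) (h : ∀ t ∈ l, k ≤ t.1 + t.2.1) :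
    (ev l) =O[𝓝 0] fun z => ‖z‖ ^ k := by
  induction l with
  | nil =>
    refine (isBigO_zero _ _).congr_left fun z => ?_
    simp
  | cons t l ih =>
    refine ((mo_isBigO t k (h t (by simp))).add (ih fun s hs => h s (by simp [hs]))).congr_left
      fun z => ?_
    rw [ev_cons]

theorem pow_isBigO {k m : ℕ} (h : k ≤ m) :
    (fun z : ℝ × ℝ => ‖z‖ ^ m) =O[𝓝 0] fun z => ‖z‖ ^ k := by
  refine IsBigO.of_bound 1 ?_
  filter_upwards [Metric.ball_mem_nhds (0 : ℝ × ℝ) one_pos] with z hz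
  have hz' : ‖z‖ < 1 := by simpa using hz
  rw [norm_pow, norm_pow, norm_norm, one_mul]
  exact pow_le_pow_of_le_one (norm_nonneg _) hz'.le h

theorem TM.order {f : ℝ × ℝ → ℝ} {l : PL} (hf : TM f l) (k : ℕ) (hk : k ≤ 5)
    (h : ∀ t ∈ l, k ≤ t.1 + t.2.1) : f =O[𝓝 0] fun z => ‖z‖ ^ k := by
  refine ((IsBigO.trans hf (pow_isBigO hk)).add (ev_isBigO l k h)).congr_left fun z => ?_
  ring

theorem TM.tpow {f : ℝ × ℝ → ℝ} {a : PL} (hf : TM f a) (n : ℕ) :
    TM (fun z => f z ^ n) (powP a n) := by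
  induction n with
  | zero =>
    refine (TM.const 1).congr (Eventually.of_forall fun z => ?_)
    simp
  | succ n ih =>
    refine ((ih.mul hf).trunc).congr (Eventually.of_forall fun z => ?_)
    rw [pow_succ]

theorem TM.tcomp {f g : ℝ × ℝ → ℝ} {a b : PL} (hf : TM f a) (hg : TM g b) (L : PL) :
    TM (fun z => ev L (f z, g z)) (compP L a b) := by
  induction L with
  | nil =>
    refine (TM.self []).congr (Eventually.of_forall fun z => ?_)
    simp
  | cons t L ih =>
    have h1 : compP (t :: L) a b = scP t.2.2 (nrm (mulP (powP a t.1) (powP b t.2.1))) ++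
        compP L a b := by simp [compP]
    rw [h1]
    refine ((((hf.tpow t.1).mul (hg.tpow t.2.1)).trunc.sc t.2.2).add ih).congr
      (Eventually.of_forall fun z => ?_)
    simp only [ev_cons, mo]
    ring

/-- the first coordinate of the points of type A -/
noncomputable def pf (ξ : ℝ) : ℝ := √((1 + ξ) / (9 + ξ))
/-- the first coordinate of the points of type B -/
noncomputable def rf (η : ℝ) : ℝ := -√((1 + η) / (144 + η))

/-- the critical parameter -/
noncomputable def bc : ℝ := 62 / 135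

theorem small_nhds (ε : ℝ) (hε : 0 < ε) : ∀ᶠ z : ℝ × ℝ in 𝓝 0, |z.1| < ε ∧ |z.2| < ε := by
  filter_upwards [Metric.ball_mem_nhds (0 : ℝ × ℝ) hε] with z hz
  have hz' : ‖z‖ < ε := by simpa using hz
  exact ⟨lt_of_le_of_lt (norm_fst_le z) hz', lt_of_le_of_lt (norm_snd_le z) hz'⟩

/-- a square root is determined by its square -/
theorem sqrt_tm (f : ℝ × ℝ → ℝ) (l : PL) (m : ℝ × ℝ → ℝ) (hf : ContinuousAt f 0)
    (hm : ContinuousAt m 0) (h0 : (f 0 + ev l 0) * m 0 ≠ 0)
    (h : (fun z => (ev l z ^ 2 - f z ^ 2) * m z) =O[𝓝 0] fun z => ‖z‖ ^ 5) : TM f l := by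
  have hc : ContinuousAt (fun z => ((f z + ev l z) * m z)⁻¹) 0 := by
    refine ContinuousAt.inv₀ ?_ h0
    exact (hf.add (continuous_ev l).continuousAt).mul hm
  have h1 := hc.isBigO_one ℝ
  have h2 := IsBigO.mul h h1
  have hne : ∀ᶠ z in 𝓝 (0 : ℝ × ℝ), (f z + ev l z) * m z ≠ 0 :=
    ((hf.add (continuous_ev l).continuousAt).mul hm).eventually_ne h0
  refine (IsBigO.congr' (h2.neg_left) ?_ ?_)
  · filter_upwards [hne] with z hz
    have h3 : f z + ev l z ≠ 0 := left_ne_zero_of_mul hz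
    have h4 : m z ≠ 0 := right_ne_zero_of_mul hz
    field_simp
    ring
  · exact Eventually.of_forall fun z => by simp

theorem tm_p : TM (fun z => pf z.1) LP := by
  have hcont : ContinuousAt (fun z : ℝ × ℝ => pf z.1) 0 := by
    unfold pf
    have h9 : (9 : ℝ) + (0 : ℝ × ℝ).1 ≠ 0 := by simp
    fun_prop (disch := simpa using h9)
  have he : ev LP 0 = 1 / 3 := by
    simp [ev, mo, LP]
  have hp : pf 0 = 1 / 3 := by
    unfold pf
    rw [show (1 + (0:ℝ)) / (9 + 0) = (1 / 3) ^ 2 by norm_num]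
    exact Real.sqrt_sq (by norm_num)
  refine sqrt_tm _ LP (fun z => 9 + z.1) hcont (by fun_prop) ?_ ?_
  · have : pf (0 : ℝ × ℝ).1 = 1 / 3 := hp
    simp only [this, he]
    norm_num
  · have h1 := (TM.self _).of_van chkP
    refine IsBigO.congr' h1 ?_ EventuallyEq.rfl
    filter_upwards [small_nhds 1 one_pos] with z hz
    have hz1 := abs_lt.1 hz.1
    have h2 : pf z.1 ^ 2 = (1 + z.1) / (9 + z.1) := by
      unfold pf
      exact Real.sq_sqrt (div_nonneg (by linarith) (by linarith))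
    have h3 : (9 : ℝ) + z.1 ≠ 0 := by linarith
    simp only [h2]
    rw [ev_append, ev_mul, ev_mul]
    simp only [ev_cons, ev_nil, mo]
    field_simp
    push_cast
    ring

theorem tm_r : TM (fun z => rf z.2) LR := by
  have hcont : ContinuousAt (fun z : ℝ × ℝ => rf z.2) 0 := by
    unfold rf
    have h9 : (144 : ℝ) + (0 : ℝ × ℝ).2 ≠ 0 := by simp
    fun_prop (disch := simpa using h9)
  have he : ev LR 0 = -1 / 12 := by
    simp [ev, mo, LR]
  have hp : rf 0 = -1 / 12 := by
    unfold rf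
    rw [show (1 + (0:ℝ)) / (144 + 0) = (1 / 12) ^ 2 by norm_num]
    rw [Real.sqrt_sq (by norm_num)]
    norm_num
  refine sqrt_tm _ LR (fun z => 144 + z.2) hcont (by fun_prop) ?_ ?_
  · have : rf (0 : ℝ × ℝ).2 = -1 / 12 := hp
    simp only [this, he]
    norm_num
  · have h1 := (TM.self _).of_van chkR
    refine IsBigO.congr' h1 ?_ EventuallyEq.rfl
    filter_upwards [small_nhds 1 one_pos] with z hz
    have hz1 := abs_lt.1 hz.2
    have h2 : rf z.2 ^ 2 = (1 + z.2) / (144 + z.2) := by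
      unfold rf
      rw [neg_sq]
      exact Real.sq_sqrt (div_nonneg (by linarith) (by linarith))
    have h3 : (144 : ℝ) + z.2 ≠ 0 := by linarith
    simp only [h2]
    rw [ev_append, ev_mul, ev_mul]
    simp only [ev_cons, ev_nil, mo]
    field_simp
    push_cast
    ring

theorem tm_x : TM (fun z => pf z.1 - 1 / 3) LX := by
  refine TM.change ((tm_p.add (TM.const (-1 / 3))).congr (Eventually.of_forall fun z => ?_)) chkX
  push_cast
  ring

theorem tm_y : TM (fun z => rf z.2 + 1 / 12) LY := by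
  refine TM.change ((tm_r.add (TM.const (1 / 12))).congr (Eventually.of_forall fun z => ?_)) chkY
  push_cast
  ring

/-- the variance of the first coordinate, divided by its value at the fixed point -/
noncomputable def vf (b : ℝ) (z : ℝ × ℝ) : ℝ :=
  1 + 9 * (1 / 3 - b) * (pf z.1 - 1 / 3) + 288 / 143 * (-1 / 12 - b) * (rf z.2 + 1 / 12) +
    9 / 2 * (pf z.1 - 1 / 3) ^ 2 + 144 / 143 * (rf z.2 + 1 / 12) ^ 2 -
    b * (1 - b) * (11 / 21) * (9 / 2 * (pf z.1 - 1 / 3) + 144 / 143 * (rf z.2 + 1 / 12)) ^ 2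

/-- the reduced map -/
noncomputable def f (b : ℝ) (z : ℝ × ℝ) : ℝ × ℝ :=
  ((1 + z.1) * (9 + z.1) / 9 * vf b z - 1, (1 + z.2) * (144 + z.2) / 144 * vf b z - 1)

theorem tm_v : TM (vf bc) LV := by
  have hl : TM (fun z => 9 / 2 * (pf z.1 - 1 / 3) + 144 / 143 * (rf z.2 + 1 / 12)) LL := by
    refine ((tm_x.sc (9 / 2)).add (tm_y.sc (144 / 143))).congr (Eventually.of_forall fun z => ?_)
    push_cast
    ring
  refine TM.change (a := EV) (TM.congr (((((TM.const 1).add (tm_x.sc (-17 / 15))).add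
    (tm_y.sc (-2344 / 2145))).add ((tm_x.mul tm_x).sc (9 / 2))).add
    ((tm_y.mul tm_y).sc (144 / 143)) |>.add ((hl.mul hl).sc (-49786 / 382725)))
    (Eventually.of_forall fun z => ?_)) chkV
  unfold vf bc
  push_cast
  ring

theorem tm_f1 : TM (fun z => (f bc z).1) G1 := by
  refine TM.change (TM.congr (((TM.self [(0, 0, 1), (1, 0, 10 / 9), (2, 0, 1 / 9)]).mul tm_v).add
    (TM.const (-1))) (Eventually.of_forall fun z => ?_)) chkG1
  simp only [f, ev_cons, ev_nil, mo]
  push_cast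
  ring

theorem tm_f2 : TM (fun z => (f bc z).2) G2 := by
  refine TM.change (TM.congr (((TM.self [(0, 0, 1), (0, 1, 145 / 144), (0, 2, 1 / 144)]).mul
    tm_v).add (TM.const (-1))) (Eventually.of_forall fun z => ?_)) chkG2
  simp only [f, ev_cons, ev_nil, mo]
  push_cast
  ring

/-- the decisive expansion -/
theorem key : (fun z => ev LH (f bc z) - ev LH z + 20920540457 / 133173603360 * ev Lq z ^ 2)
    =O[𝓝 0] fun z => ‖z‖ ^ 5 := by
  have h1 := (((tm_f1.tcomp tm_f2 LH).add ((TM.self LH).sc (-1))).add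
    (((TM.self Lq).mul (TM.self Lq)).sc (20920540457 / 133173603360))).of_van chkH
  refine h1.congr_left fun z => ?_
  push_cast
  ring

end Pool.Agent.V5helper20.CM
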