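import Pool.Agent.V5helper20.CM.Dyn

set_option autoImplicit false

/-!
# A forward invariant region without fixed points: conclusion
-/

namespace Pool.Agent.V5helper20.CM

open Filter Asymptotics Topology

theorem LH_zero : ev LH 0 = 0 := by
  simp [LH, mo]

/-- a small closed ball on which all estimates hold -/
theorem ball_of_eventually {P : ℝ × ℝ → Prop} (h : ∀ᶠ z in 𝓝 0, P z) :
    ∃ δ > 0, ∀ z : ℝ × ℝ, ‖z‖ ≤ δ → P z := by
  obtain ⟨δ, hδ, h1⟩ := Metric.eventually_nhds_iff.1 h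
  refine ⟨δ / 2, by positivity, fun z hz => h1 ?_⟩
  rw [dist_zero_right]
  linarith

/-- forward invariant region for the critical family just below the critical parameter -/
theorem region : ∃ (b : ℝ) (S U : Set (ℝ × ℝ)), 2 / 5 < b ∧ b < bc ∧ IsCompact S ∧ IsOpen U ∧
    U ⊆ S ∧ S ∈ 𝓝 (0 : ℝ × ℝ) ∧ (∀ z ∈ S, ‖z‖ ≤ 1 / 2) ∧ (∀ z ∈ S, f b z ∈ U) ∧
    (∀ z ∈ S, z ≠ 0 → 0 < z.2 * (f b z).1 - z.1 * (f b z).2) ∧
    (∀ z, 1 / 100 * ‖z‖ ^ 2 ≤ qb b z) ∧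
    (∀ᶠ z : ℝ × ℝ in 𝓝 0, z ≠ 0 → qb b z < qb b (f b z)) := by
  obtain ⟨C, hC, δJ, hδJ, hJ⟩ := joint
  obtain ⟨δ1, hδ1, h1⟩ := ball_of_eventually H_lower
  obtain ⟨δ2, hδ2, h2⟩ := ball_of_eventually H_decr
  obtain ⟨δ, hδ, a1, a2, a3, a4, a5⟩ : ∃ δ > 0, δ ≤ 1 / 2 ∧ δ ≤ δ1 ∧ δ ≤ δ2 ∧ δ < δJ ∧
      2 * C * δ < 1 / 100 := by
    refine ⟨min (min (1 / 2) δ1) (min (min δ2 (δJ / 2)) (1 / (400 * C))), by positivity,
      ?_, ?_, ?_, ?_, ?_⟩
    · exact (min_le_left _ _).trans (min_le_left _ _)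
    · exact (min_le_left _ _).trans (min_le_right _ _)
    · exact (min_le_right _ _).trans ((min_le_left _ _).trans (min_le_left _ _))
    · refine lt_of_le_of_lt ((min_le_right _ _).trans ((min_le_left _ _).trans
        (min_le_right _ _))) (by linarith)
    · have h3 : min (min (1 / 2) δ1) (min (min δ2 (δJ / 2)) (1 / (400 * C))) ≤ 1 / (400 * C) :=
        (min_le_right _ _).trans (min_le_right _ _)
      calc 2 * C * _ ≤ 2 * C * (1 / (400 * C)) := by gcongr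
        _ = 1 / 200 := by field_simp; norm_num
        _ < 1 / 100 := by norm_num
  -- a ball mapped into the ball of radius `δ`
  have hf0 : ContinuousAt (f bc) 0 := by
    have h3 := f_cont bc (z := 0) (by simp)
    exact ContinuousAt.comp (f := fun z : ℝ × ℝ => (bc, z)) h3 (by fun_prop)
  obtain ⟨δ3, hδ3, h3⟩ := ball_of_eventually (P := fun z => ‖f bc z‖ < δ) (by
    have h4 : Tendsto (fun z => ‖f bc z‖) (𝓝 0) (𝓝 ‖f bc 0‖) := hf0.norm
    rw [f_zero, norm_zero] at h4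
    exact h4.eventually_lt_const hδ)
  obtain ⟨δ', hδ', b1, b2⟩ : ∃ δ' > 0, δ' ≤ δ ∧ δ' ≤ δ3 :=
    ⟨min δ δ3, by positivity, min_le_left _ _, min_le_right _ _⟩
  obtain ⟨h, hh⟩ : ∃ h : ℝ, h = 1 / 200 * δ' ^ 2 := ⟨_, rfl⟩
  have hh0 : 0 < h := by rw [hh]; positivity
  have hHc : Continuous (ev LH) := continuous_ev LH
  obtain ⟨S, hS⟩ : ∃ S : Set (ℝ × ℝ), S = {z | ‖z‖ ≤ δ' ∧ ev LH z ≤ h} := ⟨_, rfl⟩
  obtain ⟨U, hU⟩ : ∃ U : Set (ℝ × ℝ), U = {z | ‖z‖ < δ ∧ ev LH z < h} := ⟨_, rfl⟩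
  have hUo : IsOpen U := by
    rw [hU]
    exact (isOpen_lt continuous_norm continuous_const).inter (isOpen_lt hHc continuous_const)
  have hUS : U ⊆ S := by
    rw [hU, hS]
    rintro z ⟨hz1, hz2⟩
    refine ⟨?_, hz2.le⟩
    have h4 := h1 z (hz1.le.trans a2)
    by_contra hcon
    push Not at hcon
    have h5 : δ' ^ 2 < ‖z‖ ^ 2 := by gcongr
    rw [hh] at hz2
    linarith [sq_nonneg δ']
  have hSc : IsCompact S := by
    refine Metric.isCompact_of_isClosed_isBounded ?_ ?_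
    · rw [hS]
      exact (isClosed_le continuous_norm continuous_const).inter
        (isClosed_le hHc continuous_const)
    · refine (Metric.isBounded_closedBall (x := (0 : ℝ × ℝ)) (r := δ')).subset fun z hz => ?_
      rw [hS] at hz
      simpa using hz.1
  have hS0 : S ∈ 𝓝 (0 : ℝ × ℝ) := by
    refine mem_of_superset (hUo.mem_nhds ?_) hUS
    rw [hU]
    refine ⟨by rw [norm_zero]; exact hδ, ?_⟩
    rw [LH_zero]
    exact hh0
  have hSn : ∀ z ∈ S, ‖z‖ ≤ δ' := fun z hz => by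
    rw [hS] at hz
    exact hz.1
  have hSU : ∀ z ∈ S, f bc z ∈ U := by
    intro z hz
    have hz' := hz
    rw [hS] at hz'
    rw [hU]
    refine ⟨h3 z (hz'.1.trans b2), ?_⟩
    by_cases hz0 : z = 0
    · rw [hz0, f_zero]
      rw [LH_zero]
      exact hh0
    · exact (h2 z (hz'.1.trans (b1.trans a3)) hz0).trans_le hz'.2
  have hnear : ∀ᶠ b in 𝓝 bc, ∀ z ∈ S, f b z ∈ U := by
    refine hSc.eventually_forall_of_forall_eventually fun z hz => ?_
    exact (f_cont bc ((hSn z hz).trans (b1.trans a1))).eventually_mem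
      (hUo.mem_nhds (hSU z hz))
  have hclose : ∀ᶠ b in 𝓝 bc, |b - bc| < δJ := by
    filter_upwards [Metric.ball_mem_nhds bc hδJ] with b hb
    rwa [Metric.mem_ball, Real.dist_eq] at hb
  have h25 : ∀ᶠ b in 𝓝 bc, 2 / 5 < b := by
    refine eventually_gt_nhds ?_
    unfold bc
    norm_num
  obtain ⟨b, ⟨⟨⟨hb1, hb2⟩, hb3⟩, hb4⟩, hb5⟩ :=
    (((((hnear.and hclose).and h25).and le_qb).filter_mono nhdsWithin_le_nhds).and
      (self_mem_nhdsWithin (s := Set.Iio bc))).exists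
  refine ⟨b, S, U, hb3, hb5, hSc, hUo, hUS, hS0, fun z hz => (hSn z hz).trans (b1.trans a1),
    hb1, ?_, hb4, ?_⟩
  · intro z hz hz0
    obtain ⟨c1, c2⟩ := hJ b hb2 z (lt_of_le_of_lt ((hSn z hz).trans b1) a4)
    have hn : 0 < ‖z‖ := norm_pos_iff.2 hz0
    have d1 : |z.1| ≤ ‖z‖ := by rw [← Real.norm_eq_abs]; exact norm_fst_le z
    have d2 : |z.2| ≤ ‖z‖ := by rw [← Real.norm_eq_abs]; exact norm_snd_le z
    have e1 : |z.2 * ((f b z).1 - (Mb b z).1)| ≤ ‖z‖ * (C * ‖z‖ ^ 2) := by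
      rw [abs_mul]; gcongr
    have e2 : |z.1 * ((f b z).2 - (Mb b z).2)| ≤ ‖z‖ * (C * ‖z‖ ^ 2) := by
      rw [abs_mul]; gcongr
    have e3 : z.2 * (f b z).1 - z.1 * (f b z).2 = qb b z + z.2 * ((f b z).1 - (Mb b z).1) -
        z.1 * ((f b z).2 - (Mb b z).2) := by
      rw [qb_eq]; ring
    rw [e3]
    have e4 := (abs_le.1 e1).1
    have e5 := (abs_le.1 e2).2
    have e6 := hb4 z
    have e7 : 2 * C * ‖z‖ < 1 / 100 := by
      refine lt_of_le_of_lt ?_ a5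
      have := (hSn z hz).trans b1
      gcongr
    have e8 : 2 * C * ‖z‖ * ‖z‖ ^ 2 < 1 / 100 * ‖z‖ ^ 2 :=
      mul_lt_mul_of_pos_right e7 (by positivity)
    nlinarith
  · refine repel hb5 hb4 C δJ hδJ fun z hz => hJ b hb2 z hz

/-- the dynamical statement -/
theorem dyn : ∃ (w₀ : ℝ × ℝ × ℝ) (K : Set (ℝ × ℝ)) (c : ℝ), 0 < w₀.1 ∧ 0 < w₀.2.1 ∧
    0 < w₀.2.2 ∧ w₀.1 + w₀.2.1 + w₀.2.2 < 1 ∧ IsCompact K ∧ K.Nonempty ∧ (∀ z ∈ K, ‖z‖ ≤ 1 / 2) ∧ 0 < c ∧
    ∀ᶠ w in 𝓝 w₀, ∀ z ∈ K, Fw w z ∈ K ∧ c < gap w z := by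
  obtain ⟨b, S, U, hb1, hb2, hSc, hUo, hUS, hS0, hSn, hSU, hD, hq, hrep⟩ := region
  have hb3 : b < 1 / 2 := hb2.trans (by unfold bc; norm_num)
  have hbb : b * (1 - b) ≠ 0 := by nlinarith
  have hqc : Continuous (qb b) := by unfold qb; fun_prop
  have hfc : ∀ z ∈ S, ContinuousAt (f b) z := fun z hz =>
    ContinuousAt.comp (f := fun z : ℝ × ℝ => (b, z)) (f_cont b (hSn z hz)) (by fun_prop)
  obtain ⟨r, hr, hr1⟩ := ball_of_eventually hrep
  -- the values of the quadratic form away from the fixed point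
  obtain ⟨κ0, hκ0, hκ1⟩ : ∃ κ0 > 0, ∀ z ∈ S, r ≤ ‖z‖ → κ0 ≤ qb b (f b z) := by
    have hT : IsCompact (S ∩ {z | r ≤ ‖z‖}) :=
      hSc.inter_right (isClosed_le continuous_const continuous_norm)
    rcases (S ∩ {z | r ≤ ‖z‖}).eq_empty_or_nonempty with he | hne
    · refine ⟨1, one_pos, fun z hz hz2 => ?_⟩
      have : z ∈ S ∩ {z | r ≤ ‖z‖} := ⟨hz, hz2⟩
      rw [he] at this
      exact this.elim
    · obtain ⟨z0, hz0, hmin⟩ := hT.exists_isMinOn hne (f := fun z => qb b (f b z))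
        (fun z hz => (hqc.continuousAt.comp (hfc z hz.1)).continuousWithinAt)
      refine ⟨qb b (f b z0), ?_, fun z hz hz2 => hmin ⟨hz, hz2⟩⟩
      have hz00 : z0 ≠ 0 := by
        intro h
        have := hz0.2
        rw [h] at this
        simp only [Set.mem_ofPred_eq, norm_zero] at this
        linarith
      have h1 := hD z0 hz0.1 hz00
      have h2 : f b z0 ≠ 0 := by
        intro h
        rw [h] at h1
        simp at h1
      have h3 := hq (f b z0)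
      have h4 : 0 < ‖f b z0‖ := norm_pos_iff.2 h2
      have : 0 < 1 / 100 * ‖f b z0‖ ^ 2 := by positivity
      linarith
  obtain ⟨z1, hz1, hz10⟩ : ∃ z1 ∈ S, z1 ≠ (0 : ℝ × ℝ) := by
    have h1 : ∀ᶠ z in 𝓝[≠] (0 : ℝ × ℝ), z ∈ S := nhdsWithin_le_nhds hS0
    exact (h1.and self_mem_nhdsWithin).exists
  have hqz1 : 0 < qb b z1 := by
    have h3 := hq z1
    have h4 : 0 < ‖z1‖ := norm_pos_iff.2 hz10
    have : 0 < 1 / 100 * ‖z1‖ ^ 2 := by positivity
    linarith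
  obtain ⟨κ, hκ, hκ2, hκ3⟩ : ∃ κ > 0, κ < κ0 ∧ κ ≤ qb b z1 :=
    ⟨min (κ0 / 2) (qb b z1), by positivity,
      lt_of_le_of_lt (min_le_left _ _) (by linarith), min_le_right _ _⟩
  obtain ⟨K, hK⟩ : ∃ K : Set (ℝ × ℝ), K = S ∩ {z | κ ≤ qb b z} := ⟨_, rfl⟩
  have hKc : IsCompact K := by
    rw [hK]
    exact hSc.inter_right (isClosed_le continuous_const hqc)
  have hKne : K.Nonempty := ⟨z1, by rw [hK]; exact ⟨hz1, hκ3⟩⟩
  have hKS : K ⊆ S := by rw [hK]; exact Set.inter_subset_left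
  have hK0 : ∀ z ∈ K, z ≠ 0 := by
    intro z hz h
    rw [hK] at hz
    have h1 := hz.2
    rw [h] at h1
    simp only [Set.mem_ofPred_eq, qb, Prod.fst_zero, Prod.snd_zero] at h1
    norm_num at h1
    linarith
  obtain ⟨U', hU'⟩ : ∃ U' : Set (ℝ × ℝ), U' = U ∩ {z | κ < qb b z} := ⟨_, rfl⟩
  have hU'o : IsOpen U' := by
    rw [hU']
    exact hUo.inter (isOpen_lt continuous_const hqc)
  have hU'K : U' ⊆ K := by
    rw [hU', hK]
    rintro z ⟨hz1, hz2⟩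
    have hz3 : κ < qb b z := hz2
    exact ⟨hUS hz1, hz3.le⟩
  have hKU : ∀ z ∈ K, f b z ∈ U' := by
    intro z hz
    rw [hU']
    refine ⟨hSU z (hKS hz), ?_⟩
    change κ < qb b (f b z)
    rcases le_or_gt r ‖z‖ with h | h
    · exact hκ2.trans_le (hκ1 z (hKS hz) h)
    · have h1 := hr1 z h.le (hK0 z hz)
      rw [hK] at hz
      exact lt_of_le_of_lt hz.2 h1
  -- the general weights
  have hw2 : (wt b).2.1 ≠ 0 := by
    have : 0 < (wt b).2.1 := by unfold wt; simp only; nlinarith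
    exact this.ne'
  have hw3 : (wt b).2.2 ≠ 0 := by
    have : 0 < (wt b).2.2 := by unfold wt; simp only; nlinarith
    exact this.ne'
  have hFc : ∀ z ∈ K, ContinuousAt (fun x : (ℝ × ℝ × ℝ) × (ℝ × ℝ) => Fw x.1 x.2) (wt b, z) :=
    fun z hz => Fw_cont (hSn z (hKS hz)) hw2 hw3
  have hFf : ∀ z, Fw (wt b) z = f b z := Fw_wt b hbb
  have hgc : ∀ z ∈ K, ContinuousAt (fun x : (ℝ × ℝ × ℝ) × (ℝ × ℝ) => gap x.1 x.2) (wt b, z) := by
    intro z hz
    have h1 : ‖Fw (wt b, z).1 (wt b, z).2‖ ≤ 1 / 2 := by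
      rw [hFf]
      exact hSn _ (hUS (hSU z (hKS hz)))
    have h2 := pf_cont' (hFc z hz) h1
    have h3 := rf_cont' (hFc z hz) h1
    have h4 := pf_cont' (a := (wt b, z)) (g := fun w : (ℝ × ℝ × ℝ) × (ℝ × ℝ) => w.2)
      continuousAt_snd (hSn z (hKS hz))
    have h5 := rf_cont' (a := (wt b, z)) (g := fun w : (ℝ × ℝ × ℝ) × (ℝ × ℝ) => w.2)
      continuousAt_snd (hSn z (hKS hz))
    unfold gap
    exact (h2.sub h4).abs.add (h3.sub h5).abs
  have hgpos : ∀ z ∈ K, 0 < gap (wt b) z := by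
    intro z hz
    have h1 := hD z (hKS hz) (hK0 z hz)
    have h2 : f b z ≠ z := by
      intro h
      rw [h] at h1
      linarith [mul_comm z.1 z.2]
    have hz2 := hSn z (hKS hz)
    have hz3 := hSn _ (hUS (hSU z (hKS hz)))
    unfold gap
    rw [hFf]
    by_contra hcon
    have h3 := abs_nonneg (pf (f b z).1 - pf z.1)
    have h4 := abs_nonneg (rf (f b z).2 - rf z.2)
    have h5 : |pf (f b z).1 - pf z.1| = 0 := by linarith
    have h6 : |rf (f b z).2 - rf z.2| = 0 := by linarith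
    rw [abs_eq_zero, sub_eq_zero] at h5 h6
    refine h2 (Prod.ext (pf_inj ?_ ?_ h5) (rf_inj ?_ ?_ h6))
    · exact (by rw [← Real.norm_eq_abs]; exact norm_fst_le _ : |(f b z).1| ≤ ‖f b z‖).trans hz3
    · exact (by rw [← Real.norm_eq_abs]; exact norm_fst_le _ : |z.1| ≤ ‖z‖).trans hz2
    · exact (by rw [← Real.norm_eq_abs]; exact norm_snd_le _ : |(f b z).2| ≤ ‖f b z‖).trans hz3
    · exact (by rw [← Real.norm_eq_abs]; exact norm_snd_le _ : |z.2| ≤ ‖z‖).trans hz2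
  obtain ⟨z2, hz2, hmin⟩ := hKc.exists_isMinOn hKne (f := fun z => gap (wt b) z)
    (fun z hz => (ContinuousAt.comp (f := fun z : ℝ × ℝ => (wt b, z)) (hgc z hz)
      (by fun_prop)).continuousWithinAt)
  have hc0 := hgpos z2 hz2
  refine ⟨wt b, K, gap (wt b) z2 / 2, ?_, ?_, ?_, ?_, hKc, hKne, fun z hz => hSn z (hKS hz),
    by positivity, ?_⟩
  · unfold wt; simp only; nlinarith
  · unfold wt; simp only; nlinarith
  · unfold wt; simp only; nlinarith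
  · have hb4 : b < 62 / 135 := hb2
    have h1 : 0 < (62 / 135 - b) * (22 - 15 * (62 / 135 + b)) :=
      mul_pos (by linarith) (by linarith)
    unfold wt; simp only; nlinarith
  · refine hKc.eventually_forall_of_forall_eventually fun z hz => ?_
    have h1 : ∀ᶠ x : (ℝ × ℝ × ℝ) × (ℝ × ℝ) in 𝓝 (wt b, z), Fw x.1 x.2 ∈ U' := by
      refine (hFc z hz).eventually_mem (hU'o.mem_nhds ?_)
      change Fw (wt b) z ∈ U'
      rw [hFf]
      exact hKU z hz
    have h2 : ∀ᶠ x : (ℝ × ℝ × ℝ) × (ℝ × ℝ) in 𝓝 (wt b, z), gap (wt b) z2 / 2 < gap x.1 x.2 := by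
      refine (hgc z hz).eventually_const_lt ?_
      have h3 : gap (wt b) z2 ≤ gap (wt b) z := hmin hz
      change gap (wt b) z2 / 2 < gap (wt b) z
      linarith
    filter_upwards [h1, h2] with x hx1 hx2
    exact ⟨hU'K hx1, hx2⟩

end Pool.Agent.V5helper20.CM
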