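import Pool.Agent.V5helper20.CM.Corr

set_option autoImplicit false

/-!
# The correlation map on the family
-/

namespace Pool.Agent.V5helper20.CM

open Filter Topology

/-- the variance of the first coordinate, times the number of points -/
noncomputable def Wv (m : Fin 7 × Bool → ℕ) (t : Fin 7 → ℝ) : ℝ :=
  T2 m t - T1 m t ^ 2 / ∑ x, (m x : ℝ)

/-- the squared length of the new vectors -/
noncomputable def Qc (m : Fin 7 × Bool → ℕ) (t s : Fin 7 → ℝ) (c : Fin 7) : ℝ :=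
  t c ^ 2 * Wv m t + s c ^ 2 * Sc m s c

variable {m : Fin 7 × Bool → ℕ} {t s : Fin 7 → ℝ}

theorem inner_centred [Nonempty (Ix m)]
    (hm : ∀ c, s c * ((m (c, true) : ℝ) - m (c, false)) = 0) (i k : Ix m) :
    ∑ j, centred (Gm m t s i) j * centred (Gm m t s k) j = t i.1.1 * t k.1.1 * Wv m t +
      if i.1.1 = k.1.1 then (sg i.1.2 * s i.1.1) * (sg k.1.2 * s k.1.1) * Sc m s i.1.1 else 0 := by
  rw [sum_centred, row_sum hm, row_sum hm, row_inner hm, card_Ix, Wv]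
  ring

theorem inner_self [Nonempty (Ix m)]
    (hm : ∀ c, s c * ((m (c, true) : ℝ) - m (c, false)) = 0) (i : Ix m) :
    ∑ j, centred (Gm m t s i) j ^ 2 = Qc m t s i.1.1 := by
  have h := inner_centred (t := t) hm i i
  simp only [← sq] at h
  rw [h, if_true, Qc]
  have h2 := sg_sq i.1.2
  linear_combination (s i.1.1 ^ 2 * Sc m s i.1.1) * h2

theorem corr_Gm [Nonempty (Ix m)]
    (hm : ∀ c, s c * ((m (c, true) : ℝ) - m (c, false)) = 0) (t' s' : Fin 7 → ℝ)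
    (hQ : ∀ c, 0 < Qc m t s c) (hW : 0 ≤ Wv m t)
    (ht : ∀ c, t' c = t c * √(Wv m t) / √(Qc m t s c))
    (hs : ∀ c, s' c = s c * √(Sc m s c) / √(Qc m t s c)) :
    corr (Gm m t s) = Gm m t' s' := by
  ext i k
  simp only [corr, Matrix.of_apply]
  rw [inner_centred hm, inner_self hm, inner_self hm]
  simp only [Gm, Matrix.of_apply]
  rw [ht, ht, hs, hs]
  have h1 : 0 < √(Qc m t s i.1.1) := Real.sqrt_pos.2 (hQ _)
  have h2 : 0 < √(Qc m t s k.1.1) := Real.sqrt_pos.2 (hQ _)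
  have h3 : √(Wv m t) * √(Wv m t) = Wv m t := Real.mul_self_sqrt hW
  by_cases h : i.1.1 = k.1.1
  · rw [if_pos h, if_pos h]
    have h4 : √(Sc m s i.1.1) * √(Sc m s k.1.1) = Sc m s i.1.1 := by
      rw [← h]
      refine Real.mul_self_sqrt ?_
      unfold Sc
      positivity
    field_simp
    linear_combination (-(t i.1.1 * t k.1.1)) * h3 -
      (sg i.1.2 * s i.1.1 * sg k.1.2 * s k.1.1) * h4
  · rw [if_neg h, if_neg h]
    field_simp
    linear_combination (-(t i.1.1 * t k.1.1)) * h3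

/-- multiplicities -/
def mu (a mA mB m0 : ℕ) (x : Fin 7 × Bool) : ℕ :=
  ![if x.2 then a else 0, mA, mA, mA, mA, mB, m0] x.1

/-- first coordinates -/
noncomputable def tz (z : ℝ × ℝ) : Fin 7 → ℝ := ![1, pf z.1, pf z.1, pf z.1, pf z.1, rf z.2, 0]

/-- second coordinate of type A -/
noncomputable def sa (ξ : ℝ) : ℝ := √(8 / (9 + ξ))
/-- second coordinate of type B -/
noncomputable def sb (η : ℝ) : ℝ := √(143 / (144 + η))

/-- other coordinates -/
noncomputable def sz (z : ℝ × ℝ) : Fin 7 → ℝ :=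
  ![0, sa z.1, sa z.1, sa z.1, sa z.1, sb z.2, 1]

/-- number of points -/
noncomputable def nn (a mA mB m0 : ℕ) : ℝ := a + 8 * mA + 2 * mB + 2 * m0

/-- the weights -/
noncomputable def ww (a mA mB m0 : ℕ) : ℝ × ℝ × ℝ :=
  (a / nn a mA mB m0, 8 * mA / nn a mA mB m0, 2 * mB / nn a mA mB m0)

theorem mu_sum (a mA mB m0 : ℕ) : ∑ x, (mu a mA mB m0 x : ℝ) = nn a mA mB m0 := by
  rw [Fintype.sum_prod_type]
  simp only [Fintype.sum_bool, Fin.sum_univ_succ, Fin.sum_univ_zero, mu, nn]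
  simp
  ring

theorem mu_T1 (a mA mB m0 : ℕ) (z : ℝ × ℝ) :
    T1 (mu a mA mB m0) (tz z) = a + 8 * mA * pf z.1 + 2 * mB * rf z.2 := by
  rw [T1, Fintype.sum_prod_type]
  simp only [Fintype.sum_bool, Fin.sum_univ_succ, Fin.sum_univ_zero, mu, tz]
  simp
  ring

theorem mu_T2 (a mA mB m0 : ℕ) (z : ℝ × ℝ) :
    T2 (mu a mA mB m0) (tz z) = a + 8 * mA * pf z.1 ^ 2 + 2 * mB * rf z.2 ^ 2 := by
  rw [T2, Fintype.sum_prod_type]
  simp only [Fintype.sum_bool, Fin.sum_univ_succ, Fin.sum_univ_zero, mu, tz]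
  simp
  ring

theorem mu_Wv (a mA mB m0 : ℕ) (h : 0 < m0) (z : ℝ × ℝ) :
    Wv (mu a mA mB m0) (tz z) = nn a mA mB m0 * Vw (ww a mA mB m0) z := by
  have hn : 0 < nn a mA mB m0 := by
    unfold nn
    have : (0 : ℝ) < m0 := by exact_mod_cast h
    positivity
  rw [Wv, mu_T1, mu_T2, mu_sum, Vw, ww]
  simp only
  field_simp

theorem pf_sq {z : ℝ × ℝ} (h : ‖z‖ ≤ 1 / 2) : 0 < 1 + z.1 ∧ 0 < 9 + z.1 ∧ 0 < 1 + z.2 ∧
    0 < 144 + z.2 := by
  have h1 := norm_fst_le z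
  have h2 := norm_snd_le z
  rw [Real.norm_eq_abs] at h1 h2
  have h3 := abs_le.1 (h1.trans h)
  have h4 := abs_le.1 (h2.trans h)
  refine ⟨?_, ?_, ?_, ?_⟩ <;> linarith [h3.1, h4.1]

theorem idA {x V n m : ℝ} (h1 : 0 < 1 + x) (h9 : 0 < 9 + x) (hV : 0 < V) (hn : 0 < n)
    (hm : 0 < m) : (1 + (V * ((1 + x) * (9 + x)) * n / (16 * m) - 1)) /
      (9 + (V * ((1 + x) * (9 + x)) * n / (16 * m) - 1)) =
      (1 + x) / (9 + x) * (n * V) /
        ((1 + x) / (9 + x) * (n * V) + 8 / (9 + x) * (8 / (9 + x) * (2 * m))) := by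
  obtain ⟨E, hE⟩ : ∃ E, E = V * ((1 + x) * (9 + x)) * n := ⟨_, rfl⟩
  have hE0 : 0 < E := by rw [hE]; positivity
  have e1 : 1 + (V * ((1 + x) * (9 + x)) * n / (16 * m) - 1) = E / (16 * m) := by
    rw [← hE]; ring
  have e2 : 9 + (V * ((1 + x) * (9 + x)) * n / (16 * m) - 1) = (E + 128 * m) / (16 * m) := by
    rw [← hE]; field_simp; ring
  have e3 : (1 + x) / (9 + x) * (n * V) + 8 / (9 + x) * (8 / (9 + x) * (2 * m)) =
      (E + 128 * m) / (9 + x) ^ 2 := by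
    rw [hE]; field_simp; ring
  have e4 : (1 + x) / (9 + x) * (n * V) = E / (9 + x) ^ 2 := by
    rw [hE]; field_simp
  rw [e1, e2, e3, e4]
  field_simp
theorem idA' {x V n m : ℝ} (h1 : 0 < 1 + x) (h9 : 0 < 9 + x) (hV : 0 < V) (hn : 0 < n)
    (hm : 0 < m) : 8 / (9 + (V * ((1 + x) * (9 + x)) * n / (16 * m) - 1)) =
      8 / (9 + x) * (8 / (9 + x) * (2 * m)) /
        ((1 + x) / (9 + x) * (n * V) + 8 / (9 + x) * (8 / (9 + x) * (2 * m))) := by
  obtain ⟨E, hE⟩ : ∃ E, E = V * ((1 + x) * (9 + x)) * n := ⟨_, rfl⟩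
  have hE0 : 0 < E := by rw [hE]; positivity
  have e2 : 9 + (V * ((1 + x) * (9 + x)) * n / (16 * m) - 1) = (E + 128 * m) / (16 * m) := by
    rw [← hE]; field_simp; ring
  have e3 : (1 + x) / (9 + x) * (n * V) + 8 / (9 + x) * (8 / (9 + x) * (2 * m)) =
      (E + 128 * m) / (9 + x) ^ 2 := by
    rw [hE]; field_simp; ring
  rw [e2, e3]
  field_simp
  ring
theorem idB {x V n m : ℝ} (h1 : 0 < 1 + x) (h9 : 0 < 144 + x) (hV : 0 < V) (hn : 0 < n)
    (hm : 0 < m) : (1 + (V * ((1 + x) * (144 + x)) * n / (286 * m) - 1)) /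
      (144 + (V * ((1 + x) * (144 + x)) * n / (286 * m) - 1)) =
      (1 + x) / (144 + x) * (n * V) /
        ((1 + x) / (144 + x) * (n * V) + 143 / (144 + x) * (143 / (144 + x) * (2 * m))) := by
  obtain ⟨E, hE⟩ : ∃ E, E = V * ((1 + x) * (144 + x)) * n := ⟨_, rfl⟩
  have hE0 : 0 < E := by rw [hE]; positivity
  have e1 : 1 + (V * ((1 + x) * (144 + x)) * n / (286 * m) - 1) = E / (286 * m) := by
    rw [← hE]; ring
  have e2 : 144 + (V * ((1 + x) * (144 + x)) * n / (286 * m) - 1) =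
      (E + 40898 * m) / (286 * m) := by
    rw [← hE]; field_simp; ring
  have e3 : (1 + x) / (144 + x) * (n * V) + 143 / (144 + x) * (143 / (144 + x) * (2 * m)) =
      (E + 40898 * m) / (144 + x) ^ 2 := by
    rw [hE]; field_simp; ring
  have e4 : (1 + x) / (144 + x) * (n * V) = E / (144 + x) ^ 2 := by
    rw [hE]; field_simp
  rw [e1, e2, e3, e4]
  field_simp
theorem idB' {x V n m : ℝ} (h1 : 0 < 1 + x) (h9 : 0 < 144 + x) (hV : 0 < V) (hn : 0 < n)
    (hm : 0 < m) : 143 / (144 + (V * ((1 + x) * (144 + x)) * n / (286 * m) - 1)) =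
      143 / (144 + x) * (143 / (144 + x) * (2 * m)) /
        ((1 + x) / (144 + x) * (n * V) + 143 / (144 + x) * (143 / (144 + x) * (2 * m))) := by
  obtain ⟨E, hE⟩ : ∃ E, E = V * ((1 + x) * (144 + x)) * n := ⟨_, rfl⟩
  have hE0 : 0 < E := by rw [hE]; positivity
  have e2 : 144 + (V * ((1 + x) * (144 + x)) * n / (286 * m) - 1) =
      (E + 40898 * m) / (286 * m) := by
    rw [← hE]; field_simp; ring
  have e3 : (1 + x) / (144 + x) * (n * V) + 143 / (144 + x) * (143 / (144 + x) * (2 * m)) =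
      (E + 40898 * m) / (144 + x) ^ 2 := by
    rw [hE]; field_simp; ring
  rw [e2, e3]
  field_simp
  ring

theorem step {a mA mB m0 : ℕ} (ha : 0 < a) (hA : 0 < mA) (hB : 0 < mB) (h0 : 0 < m0) {z : ℝ × ℝ}
    (hz : ‖z‖ ≤ 1 / 2) (hz' : ‖Fw (ww a mA mB m0) z‖ ≤ 1 / 2) :
    corr (Gm (mu a mA mB m0) (tz z) (sz z)) =
      Gm (mu a mA mB m0) (tz (Fw (ww a mA mB m0) z)) (sz (Fw (ww a mA mB m0) z)) := by
  obtain ⟨k1, k2, k3, k4⟩ := pf_sq hz
  obtain ⟨l1, l2, l3, l4⟩ := pf_sq hz'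
  have hAr : (0 : ℝ) < mA := by exact_mod_cast hA
  have hBr : (0 : ℝ) < mB := by exact_mod_cast hB
  have h0r : (0 : ℝ) < m0 := by exact_mod_cast h0
  have har : (0 : ℝ) < a := by exact_mod_cast ha
  have : Nonempty (Ix (mu a mA mB m0)) := ⟨⟨(0, true), ⟨0, by simpa [mu] using ha⟩⟩⟩
  obtain ⟨n, hn⟩ : ∃ n, n = nn a mA mB m0 := ⟨_, rfl⟩
  have hn0 : 0 < n := by rw [hn]; unfold nn; positivity
  obtain ⟨V, hV⟩ : ∃ V, V = Vw (ww a mA mB m0) z := ⟨_, rfl⟩
  have hF1 : (Fw (ww a mA mB m0) z).1 = V * ((1 + z.1) * (9 + z.1)) * n / (16 * mA) - 1 := by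
    rw [Fw, ← hV, ww, ← hn]
    simp only
    field_simp
    ring
  have hF2 : (Fw (ww a mA mB m0) z).2 = V * ((1 + z.2) * (144 + z.2)) * n / (286 * mB) - 1 := by
    rw [Fw, ← hV, ww, ← hn]
    simp only
    field_simp
    ring
  have hVpos : 0 < V := by
    by_contra hcon
    push Not at hcon
    rw [hF1] at l1
    have h1 : V * ((1 + z.1) * (9 + z.1)) * n / (16 * mA) ≤ 0 := by
      refine div_nonpos_of_nonpos_of_nonneg ?_ (by positivity)
      refine mul_nonpos_of_nonpos_of_nonneg (mul_nonpos_of_nonpos_of_nonneg hcon ?_) hn0.le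
      positivity
    linarith
  have hW : Wv (mu a mA mB m0) (tz z) = n * V := by rw [mu_Wv _ _ _ _ h0, ← hn, ← hV]
  have hp : pf z.1 ^ 2 = (1 + z.1) / (9 + z.1) := by
    unfold pf
    exact Real.sq_sqrt (by positivity)
  have hr : rf z.2 ^ 2 = (1 + z.2) / (144 + z.2) := by
    unfold rf
    rw [neg_sq]
    exact Real.sq_sqrt (by positivity)
  have hs8 : sa z.1 ^ 2 = 8 / (9 + z.1) := Real.sq_sqrt (by positivity)
  have hs143 : sb z.2 ^ 2 = 143 / (144 + z.2) := Real.sq_sqrt (by positivity)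
  -- the squared lengths
  have q0 : Qc (mu a mA mB m0) (tz z) (sz z) 0 = n * V := by
    rw [Qc, hW]
    simp [tz, sz]
  have qA : ∀ c : Fin 7, c = 1 ∨ c = 2 ∨ c = 3 ∨ c = 4 → Qc (mu a mA mB m0) (tz z) (sz z) c =
      (1 + z.1) / (9 + z.1) * (n * V) + 8 / (9 + z.1) * (8 / (9 + z.1) * (2 * mA)) := by
    intro c hc
    rw [Qc, hW, Sc]
    have e : pf z.1 ^ 2 * (n * V) + sa z.1 ^ 2 * (sa z.1 ^ 2 * ((mA : ℝ) + (mA : ℝ))) =
        (1 + z.1) / (9 + z.1) * (n * V) + 8 / (9 + z.1) * (8 / (9 + z.1) * (2 * mA)) := by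
      rw [hp, hs8]; ring
    rcases hc with h | h | h | h <;> subst h <;> exact e
  have qB : Qc (mu a mA mB m0) (tz z) (sz z) 5 =
      (1 + z.2) / (144 + z.2) * (n * V) + 143 / (144 + z.2) * (143 / (144 + z.2) * (2 * mB)) := by
    rw [Qc, hW, Sc]
    have e : rf z.2 ^ 2 * (n * V) + sb z.2 ^ 2 * (sb z.2 ^ 2 * ((mB : ℝ) + (mB : ℝ))) =
        (1 + z.2) / (144 + z.2) * (n * V) +
          143 / (144 + z.2) * (143 / (144 + z.2) * (2 * mB)) := by
      rw [hr, hs143]; ring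
    exact e
  have qC : Qc (mu a mA mB m0) (tz z) (sz z) 6 = 2 * m0 := by
    rw [Qc, hW, Sc]
    have e : (0 : ℝ) ^ 2 * (n * V) + (1 : ℝ) ^ 2 * ((1 : ℝ) ^ 2 * ((m0 : ℝ) + (m0 : ℝ))) =
        2 * m0 := by ring
    exact e
  have sA : ∀ c : Fin 7, c = 1 ∨ c = 2 ∨ c = 3 ∨ c = 4 → Sc (mu a mA mB m0) (sz z) c =
      8 / (9 + z.1) * (2 * mA) := by
    intro c hc
    rw [Sc]
    have e : sa z.1 ^ 2 * ((mA : ℝ) + (mA : ℝ)) = 8 / (9 + z.1) * (2 * mA) := by
      rw [hs8]; ring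
    rcases hc with h | h | h | h <;> subst h <;> exact e
  have sB : Sc (mu a mA mB m0) (sz z) 5 = 143 / (144 + z.2) * (2 * mB) := by
    rw [Sc]
    have e : sb z.2 ^ 2 * ((mB : ℝ) + (mB : ℝ)) = 143 / (144 + z.2) * (2 * mB) := by
      rw [hs143]; ring
    exact e
  have sC : Sc (mu a mA mB m0) (sz z) 6 = 2 * m0 := by
    rw [Sc]
    have e : (1 : ℝ) ^ 2 * ((m0 : ℝ) + (m0 : ℝ)) = 2 * m0 := by ring
    exact e
  have ratA : pf (Fw (ww a mA mB m0) z).1 = pf z.1 * √(n * V) /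
      √((1 + z.1) / (9 + z.1) * (n * V) + 8 / (9 + z.1) * (8 / (9 + z.1) * (2 * mA))) := by
    unfold pf
    rw [← Real.sqrt_mul (by positivity), ← Real.sqrt_div (by positivity), hF1]
    congr 1
    exact idA k1 k2 hVpos hn0 hAr
  have ratA' : sa (Fw (ww a mA mB m0) z).1 = sa z.1 * √(8 / (9 + z.1) * (2 * mA)) /
      √((1 + z.1) / (9 + z.1) * (n * V) + 8 / (9 + z.1) * (8 / (9 + z.1) * (2 * mA))) := by
    unfold sa
    rw [← Real.sqrt_mul (by positivity), ← Real.sqrt_div (by positivity), hF1]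
    congr 1
    exact idA' k1 k2 hVpos hn0 hAr
  have ratB : rf (Fw (ww a mA mB m0) z).2 = rf z.2 * √(n * V) /
      √((1 + z.2) / (144 + z.2) * (n * V) + 143 / (144 + z.2) * (143 / (144 + z.2) * (2 * mB))) := by
    unfold rf
    rw [neg_mul, neg_div, ← Real.sqrt_mul (by positivity), ← Real.sqrt_div (by positivity), hF2]
    congr 2
    exact idB k3 k4 hVpos hn0 hBr
  have ratB' : sb (Fw (ww a mA mB m0) z).2 = sb z.2 * √(143 / (144 + z.2) * (2 * mB)) /
      √((1 + z.2) / (144 + z.2) * (n * V) + 143 / (144 + z.2) * (143 / (144 + z.2) * (2 * mB))) := by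
    unfold sb
    rw [← Real.sqrt_mul (by positivity), ← Real.sqrt_div (by positivity), hF2]
    congr 1
    exact idB' k3 k4 hVpos hn0 hBr
  have cases7 : ∀ c : Fin 7, c = 0 ∨ (c = 1 ∨ c = 2 ∨ c = 3 ∨ c = 4) ∨ c = 5 ∨ c = 6 := by
    decide
  refine corr_Gm ?_ _ _ ?_ ?_ ?_ ?_
  · intro c
    rcases cases7 c with h | (h | h | h | h) | h | h <;> subst h <;> simp [sz, mu]
  · intro c
    rcases cases7 c with h | h | h | h
    · subst h; rw [q0]; positivity
    · rw [qA c h]; positivity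
    · subst h; rw [qB]; positivity
    · subst h; rw [qC]; positivity
  · rw [hW]; positivity
  · intro c
    rcases cases7 c with h | h | h | h
    · subst h
      rw [q0, hW]
      have : √(n * V) ≠ 0 := (Real.sqrt_pos.2 (by positivity)).ne'
      simp [tz, div_self this]
    · rw [qA c h, hW]
      rcases h with h | h | h | h <;> subst h <;> exact ratA
    · subst h
      rw [qB, hW]
      exact ratB
    · subst h
      simp [tz]
  · intro c
    rcases cases7 c with h | h | h | h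
    · subst h
      simp [sz]
    · rw [qA c h, sA c h]
      rcases h with h | h | h | h <;> subst h <;> exact ratA'
    · subst h
      rw [qB, sB]
      exact ratB'
    · subst h
      rw [qC, sC]
      have : √(2 * (m0 : ℝ)) ≠ 0 := (Real.sqrt_pos.2 (by positivity)).ne'
      have e : (1 : ℝ) = 1 * √(2 * (m0 : ℝ)) / √(2 * (m0 : ℝ)) := by
        rw [one_mul, div_self this]
      exact e

end Pool.Agent.V5helper20.CM
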