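import Mathlib

set_option autoImplicit false

/-!
# Taylor models of order four in two variables
-/

namespace Pool.Agent.V5helper20.CM

open Filter Asymptotics Topology

/-- a polynomial in two variables as a list of monomials -/
abbrev PL := List (ℕ × ℕ × ℚ)

/-- one monomial -/
noncomputable def mo (t : ℕ × ℕ × ℚ) (z : ℝ × ℝ) : ℝ := (t.2.2 : ℝ) * z.1 ^ t.1 * z.2 ^ t.2.1

/-- evaluation -/
noncomputable def ev (l : PL) (z : ℝ × ℝ) : ℝ := (l.map fun t => mo t z).sum

/-- product -/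
def mulP (a b : PL) : PL := a.flatMap fun s => b.map fun t => (s.1 + t.1, s.2.1 + t.2.1, s.2.2 * t.2.2)

/-- scalar multiple -/
def scP (c : ℚ) (a : PL) : PL := a.map fun t => (t.1, t.2.1, c * t.2.2)

/-- coefficient -/
def coef (l : PL) (i j : ℕ) : ℚ := (l.map fun t => if t.1 = i ∧ t.2.1 = j then t.2.2 else 0).sum

/-- the exponents of the monomials of degree at most four -/
def idx : List (ℕ × ℕ) :=
  [(0,0),(1,0),(0,1),(2,0),(1,1),(0,2),(3,0),(2,1),(1,2),(0,3),(4,0),(3,1),(2,2),(1,3),(0,4)]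

/-- truncated normal form -/
def nrm (l : PL) : PL := idx.map fun p => (p.1, p.2, coef l p.1 p.2)

@[simp] theorem ev_nil (z : ℝ × ℝ) : ev [] z = 0 := by simp [ev]

@[simp] theorem ev_cons (t : ℕ × ℕ × ℚ) (l : PL) (z : ℝ × ℝ) : ev (t :: l) z = mo t z + ev l z := by
  simp [ev]

theorem ev_append (a b : PL) (z : ℝ × ℝ) : ev (a ++ b) z = ev a z + ev b z := by
  simp [ev]

theorem ev_sc (c : ℚ) (a : PL) (z : ℝ × ℝ) : ev (scP c a) z = c * ev a z := by
  induction a with
  | nil => simp [scP]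
  | cons t l ih =>
    have h : scP c (t :: l) = (t.1, t.2.1, c * t.2.2) :: scP c l := rfl
    rw [h, ev_cons, ev_cons, ih]
    simp only [mo]
    push_cast
    ring

theorem ev_mul1 (s : ℕ × ℕ × ℚ) (b : PL) (z : ℝ × ℝ) :
    ev (b.map fun t => (s.1 + t.1, s.2.1 + t.2.1, s.2.2 * t.2.2)) z = mo s z * ev b z := by
  induction b with
  | nil => simp
  | cons t m ih =>
    rw [List.map_cons, ev_cons, ev_cons, mul_add, ih]
    congr 1
    simp only [mo]
    push_cast
    ring

theorem ev_mul (a b : PL) (z : ℝ × ℝ) : ev (mulP a b) z = ev a z * ev b z := by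
  induction a with
  | nil => simp [mulP]
  | cons s l ih =>
    have h : mulP (s :: l) b = (b.map fun t => (s.1 + t.1, s.2.1 + t.2.1, s.2.2 * t.2.2)) ++
      mulP l b := by simp [mulP]
    rw [h, ev_append, ev_cons, ih, add_mul, ev_mul1]

theorem continuous_mo (t : ℕ × ℕ × ℚ) : Continuous (mo t) := by
  unfold mo
  fun_prop

theorem continuous_ev (l : PL) : Continuous (ev l) := by
  induction l with
  | nil =>
    have : ev [] = fun _ => 0 := by funext z; simp
    rw [this]; exact continuous_const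
  | cons t l ih =>
    have : ev (t :: l) = fun z => mo t z + ev l z := by funext z; simp
    rw [this]
    exact (continuous_mo t).add ih

/-- monomials of degree `k` are `O(‖z‖ ^ k)` -/
theorem mo_le (t : ℕ × ℕ × ℚ) (z : ℝ × ℝ) :
    |mo t z| ≤ |(t.2.2 : ℝ)| * ‖z‖ ^ (t.1 + t.2.1) := by
  unfold mo
  rw [abs_mul, abs_mul, abs_pow, abs_pow, pow_add, mul_assoc]
  have h1 : |z.1| ≤ ‖z‖ := by
    rw [← Real.norm_eq_abs]; exact norm_fst_le z
  have h2 : |z.2| ≤ ‖z‖ := by
    rw [← Real.norm_eq_abs]; exact norm_snd_le z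
  gcongr

theorem mo_isBigO (t : ℕ × ℕ × ℚ) (k : ℕ) (h : k ≤ t.1 + t.2.1) :
    (mo t) =O[𝓝 0] fun z => ‖z‖ ^ k := by
  refine IsBigO.of_bound |(t.2.2 : ℝ)| ?_
  have h1 : ∀ᶠ z : ℝ × ℝ in 𝓝 0, ‖z‖ < 1 := by
    have := Metric.ball_mem_nhds (0 : ℝ × ℝ) one_pos
    filter_upwards [this] with z hz
    simpa using hz
  filter_upwards [h1] with z hz
  rw [Real.norm_eq_abs]
  refine (mo_le t z).trans ?_
  gcongr 1
  rw [norm_pow, norm_norm]
  exact pow_le_pow_of_le_one (norm_nonneg _) hz.le h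

theorem mem_idx (i j : ℕ) (h : i + j ≤ 4) : (i, j) ∈ idx := by
  have hi : i ≤ 4 := by omega
  have hj : j ≤ 4 := by omega
  interval_cases i <;> interval_cases j <;> first | (simp [idx]; done) | omega

theorem idx_deg (p : ℕ × ℕ) (h : p ∈ idx) : p.1 + p.2 ≤ 4 := by
  simp only [idx, List.mem_cons, List.not_mem_nil, or_false] at h
  rcases h with h | h | h | h | h | h | h | h | h | h | h | h | h | h | h <;> subst h <;> norm_num

theorem nodup_idx : idx.Nodup := by decide

theorem coef_cons (t : ℕ × ℕ × ℚ) (l : PL) (i j : ℕ) :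
    coef (t :: l) i j = (if t.1 = i ∧ t.2.1 = j then t.2.2 else 0) + coef l i j := by
  simp [coef]

theorem ev_nrm (l : PL) (z : ℝ × ℝ) :
    ev (nrm l) z = (idx.map fun p => (coef l p.1 p.2 : ℝ) * z.1 ^ p.1 * z.2 ^ p.2).sum := by
  simp [nrm, ev, mo, Function.comp_def]

theorem sum_pick (t : ℕ × ℕ × ℚ) (z : ℝ × ℝ) (L : List (ℕ × ℕ)) (hL : L.Nodup) :
    (L.map fun p => (((if t.1 = p.1 ∧ t.2.1 = p.2 then t.2.2 else 0 : ℚ) : ℝ)) * z.1 ^ p.1 *
      z.2 ^ p.2).sum = if (t.1, t.2.1) ∈ L then mo t z else 0 := by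
  induction L with
  | nil => simp
  | cons p L ih =>
    rw [List.map_cons, List.sum_cons, ih hL.of_cons]
    by_cases hp : t.1 = p.1 ∧ t.2.1 = p.2
    · have h1 : (t.1, t.2.1) = p := Prod.ext hp.1 hp.2
      have h2 : (t.1, t.2.1) ∉ L := by
        rw [h1]; exact (List.nodup_cons.1 hL).1
      rw [if_pos hp, if_neg h2, if_pos (by rw [h1]; exact List.mem_cons_self), add_zero]
      unfold mo
      rw [hp.1, hp.2]
    · have h1 : (t.1, t.2.1) ≠ p := fun h => hp ⟨congrArg Prod.fst h, congrArg Prod.snd h⟩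
      rw [if_neg hp]
      simp [h1]

theorem nrm_isBigO (l : PL) : (fun z => ev l z - ev (nrm l) z) =O[𝓝 0] fun z => ‖z‖ ^ 5 := by
  induction l with
  | nil =>
    have : (fun z => ev [] z - ev (nrm []) z) = fun _ => (0 : ℝ) := by
      funext z
      rw [ev_nrm]
      simp [coef, idx]
    rw [this]
    exact isBigO_zero _ _
  | cons t l ih =>
    have h1 : ∀ z, ev (nrm (t :: l)) z = (if (t.1, t.2.1) ∈ idx then mo t z else 0) +
        ev (nrm l) z := by
      intro z
      rw [ev_nrm, ev_nrm, ← sum_pick t z idx nodup_idx, ← List.sum_map_add]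
      congr 1
      refine List.map_congr_left fun p _ => ?_
      rw [coef_cons]
      push_cast
      ring
    by_cases h : (t.1, t.2.1) ∈ idx
    · have h2 : (fun z => ev (t :: l) z - ev (nrm (t :: l)) z) =
          fun z => ev l z - ev (nrm l) z := by
        funext z
        rw [h1, if_pos h, ev_cons]
        ring
      rw [h2]
      exact ih
    · have h2 : (fun z => ev (t :: l) z - ev (nrm (t :: l)) z) =
          fun z => mo t z + (ev l z - ev (nrm l) z) := by
        funext z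
        rw [h1, if_neg h, ev_cons]
        ring
      rw [h2]
      refine (mo_isBigO t 5 ?_).add ih
      by_contra hc
      exact h (mem_idx _ _ (by omega))

/-- Taylor model: `f` is the polynomial `l` up to terms of order five -/
def TM (f : ℝ × ℝ → ℝ) (l : PL) : Prop := (fun z => f z - ev l z) =O[𝓝 0] fun z => ‖z‖ ^ 5

theorem TM.bdd {f : ℝ × ℝ → ℝ} {l : PL} (h : TM f l) : f =O[𝓝 0] fun _ => (1 : ℝ) := by
  have h1 : (fun z : ℝ × ℝ => ‖z‖ ^ 5) =O[𝓝 0] fun _ => (1 : ℝ) :=
    ((continuous_norm.pow 5).continuousAt (x := (0 : ℝ × ℝ))).isBigO_one ℝ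
  have h2 : (ev l) =O[𝓝 0] fun _ => (1 : ℝ) :=
    ((continuous_ev l).continuousAt (x := (0 : ℝ × ℝ))).isBigO_one ℝ
  have h3 := (h.trans h1).add h2
  refine h3.congr_left fun z => ?_
  ring

theorem TM.add {f g : ℝ × ℝ → ℝ} {a b : PL} (hf : TM f a) (hg : TM g b) :
    TM (fun z => f z + g z) (a ++ b) := by
  refine (IsBigO.add hf hg).congr_left fun z => ?_
  rw [ev_append]
  ring

theorem TM.mul {f g : ℝ × ℝ → ℝ} {a b : PL} (hf : TM f a) (hg : TM g b) :
    TM (fun z => f z * g z) (mulP a b) := by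
  have h2 : (ev a) =O[𝓝 0] fun _ => (1 : ℝ) :=
    ((continuous_ev a).continuousAt (x := (0 : ℝ × ℝ))).isBigO_one ℝ
  have h4 : (fun z => (f z - ev a z) * g z) =O[𝓝 0] fun z : ℝ × ℝ => ‖z‖ ^ 5 :=
    (IsBigO.mul hf hg.bdd).congr_right fun z => mul_one _
  have h5 : (fun z => ev a z * (g z - ev b z)) =O[𝓝 0] fun z : ℝ × ℝ => ‖z‖ ^ 5 :=
    (IsBigO.mul h2 hg).congr_right fun z => one_mul _
  refine (h4.add h5).congr_left fun z => ?_
  rw [ev_mul]
  ring

theorem TM.sc {f : ℝ × ℝ → ℝ} {a : PL} (c : ℚ) (hf : TM f a) :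
    TM (fun z => c * f z) (scP c a) := by
  refine (IsBigO.const_mul_left hf (c : ℝ)).congr_left fun z => ?_
  rw [ev_sc]
  ring

theorem TM.trunc {f : ℝ × ℝ → ℝ} {a : PL} (hf : TM f a) : TM f (nrm a) := by
  refine (IsBigO.add hf (nrm_isBigO a)).congr_left fun z => ?_
  ring

theorem TM.self (l : PL) : TM (ev l) l := by
  refine (isBigO_zero _ _).congr_left fun z => ?_
  simp

theorem TM.congr {f g : ℝ × ℝ → ℝ} {a : PL} (hf : TM f a) (h : ∀ᶠ z in 𝓝 0, f z = g z) :
    TM g a := by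
  refine IsBigO.congr' hf ?_ EventuallyEq.rfl
  filter_upwards [h] with z hz
  rw [hz]

theorem TM.const (c : ℚ) : TM (fun _ => (c : ℝ)) [(0, 0, c)] := by
  refine (TM.self _).congr (Eventually.of_forall fun z => ?_)
  simp [mo]

/-- all coefficients up to degree four vanish -/
def van (l : PL) : Bool := idx.all fun p => coef l p.1 p.2 == 0

theorem TM.of_van {f : ℝ × ℝ → ℝ} {a : PL} (hf : TM f a) (h : van a = true) :
    f =O[𝓝 0] fun z => ‖z‖ ^ 5 := by
  have h1 : ∀ p ∈ idx, coef a p.1 p.2 = 0 := by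
    intro p hp
    have := List.all_eq_true.1 h p hp
    simpa using this
  have h2 : ∀ z, ev (nrm a) z = 0 := by
    intro z
    rw [ev_nrm]
    have : (idx.map fun p => (coef a p.1 p.2 : ℝ) * z.1 ^ p.1 * z.2 ^ p.2) =
        idx.map fun _ => (0 : ℝ) := by
      refine List.map_congr_left fun p hp => ?_
      rw [h1 p hp]
      simp
    rw [this]
    simp
  refine hf.trunc.congr_left fun z => ?_
  rw [h2]
  ring

end Pool.Agent.V5helper20.CM
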