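import Pool.Agent.V5helper20.CM.Local

set_option autoImplicit false

/-!
# Estimates near the fixed point
-/

namespace Pool.Agent.V5helper20.CM

open Filter Asymptotics Topology

theorem ev_Lq (z : ℝ × ℝ) : ev Lq z = 68 / 405 * z.1 ^ 2 - 353 / 3240 * z.1 * z.2 +
    293 / 6480 * z.2 ^ 2 := by
  simp only [Lq, ev_cons, ev_nil, mo]
  push_cast
  ring

theorem norm_sq_le (z : ℝ × ℝ) : ‖z‖ ^ 2 ≤ z.1 ^ 2 + z.2 ^ 2 := by
  rw [Prod.norm_def]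
  rcases max_choice ‖z.1‖ ‖z.2‖ with h | h <;> rw [h, Real.norm_eq_abs, sq_abs]
  · nlinarith [sq_nonneg z.2]
  · nlinarith [sq_nonneg z.1]

theorem le_ev_Lq (z : ℝ × ℝ) : 1 / 50 * ‖z‖ ^ 2 ≤ ev Lq z := by
  have h := norm_sq_le z
  rw [ev_Lq]
  nlinarith [sq_nonneg (z.1 - 353 / 960 * z.2), sq_nonneg z.2, sq_nonneg z.1]

theorem H_lower : ∀ᶠ z : ℝ × ℝ in 𝓝 0, 1 / 100 * ‖z‖ ^ 2 ≤ ev LH z := by
  have h1 : (fun z => ev LH z - ev Lq z) =O[𝓝 0] fun z : ℝ × ℝ => ‖z‖ ^ 3 := by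
    have h2 := ev_isBigO (LH.drop 3) 3 (by
      intro t ht
      simp only [LH, List.drop_succ_cons, List.drop_zero, List.mem_cons, List.not_mem_nil,
        or_false] at ht
      rcases ht with h | h | h | h | h | h | h | h <;> subst h <;> norm_num)
    refine h2.congr_left fun z => ?_
    simp only [LH, Lq, List.drop_succ_cons, List.drop_zero, ev_cons, ev_nil]
    ring
  obtain ⟨C, hC⟩ := h1.bound
  have hC' : ∀ᶠ z : ℝ × ℝ in 𝓝 0, |C| * ‖z‖ ≤ 1 / 100 := by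
    have : Tendsto (fun z : ℝ × ℝ => |C| * ‖z‖) (𝓝 0) (𝓝 (|C| * ‖(0 : ℝ × ℝ)‖)) :=
      (continuous_const.mul continuous_norm).continuousAt
    rw [norm_zero, mul_zero] at this
    exact this.eventually_le_const (by norm_num)
  filter_upwards [hC, hC'] with z h2 h3
  rw [Real.norm_eq_abs, norm_pow, norm_norm] at h2
  have h4 := le_ev_Lq z
  have h5 := (abs_le.1 h2).1
  have h6 : C * ‖z‖ ^ 3 ≤ 1 / 100 * ‖z‖ ^ 2 := by
    have h7 : C * ‖z‖ ^ 3 ≤ |C| * ‖z‖ * ‖z‖ ^ 2 := by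
      rw [mul_assoc, ← pow_succ']
      exact mul_le_mul_of_nonneg_right (le_abs_self C) (by positivity)
    exact h7.trans (mul_le_mul_of_nonneg_right h3 (by positivity))
  linarith

/-- at the critical parameter the Lyapunov function decreases -/
theorem H_decr : ∀ᶠ z : ℝ × ℝ in 𝓝 0, z ≠ 0 → ev LH (f bc z) < ev LH z := by
  obtain ⟨C, hC⟩ := key.bound
  have hC' : ∀ᶠ z : ℝ × ℝ in 𝓝 0, |C| * ‖z‖ ≤ 1 / 100000 := by
    have : Tendsto (fun z : ℝ × ℝ => |C| * ‖z‖) (𝓝 0) (𝓝 (|C| * ‖(0 : ℝ × ℝ)‖)) :=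
      (continuous_const.mul continuous_norm).continuousAt
    rw [norm_zero, mul_zero] at this
    exact this.eventually_le_const (by norm_num)
  filter_upwards [hC, hC'] with z h2 h3 hz
  rw [Real.norm_eq_abs, norm_pow, norm_norm] at h2
  have h5 := (abs_le.1 h2).2
  have hn : 0 < ‖z‖ := norm_pos_iff.2 hz
  have h4 := le_ev_Lq z
  have h8 : (1 / 50 * ‖z‖ ^ 2) ^ 2 ≤ ev Lq z ^ 2 := by
    have : 0 ≤ 1 / 50 * ‖z‖ ^ 2 := by positivity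
    gcongr
  have h6 : C * ‖z‖ ^ 5 ≤ 1 / 100000 * ‖z‖ ^ 4 := by
    have h7 : C * ‖z‖ ^ 5 ≤ |C| * ‖z‖ * ‖z‖ ^ 4 := by
      rw [mul_assoc, ← pow_succ']
      exact mul_le_mul_of_nonneg_right (le_abs_self C) (by positivity)
    exact h7.trans (mul_le_mul_of_nonneg_right h3 (by positivity))
  have h9 : 0 < ‖z‖ ^ 4 := by positivity
  nlinarith

/-- the quadratic form of the linearisation -/
noncomputable def qb (b : ℝ) (z : ℝ × ℝ) : ℝ :=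
  4 / 3 * (b - 1 / 3) * z.1 ^ 2 + (10 / 9 - 4 / 3 * (b - 1 / 3) - 145 / 144 -
    1 / 12 * (b + 1 / 12)) * z.1 * z.2 + 1 / 12 * (b + 1 / 12) * z.2 ^ 2

/-- the linearisation -/
noncomputable def Mb (b : ℝ) (z : ℝ × ℝ) : ℝ × ℝ :=
  ((10 / 9 - 4 / 3 * (b - 1 / 3)) * z.1 + 1 / 12 * (b + 1 / 12) * z.2,
    -(4 / 3 * (b - 1 / 3)) * z.1 + (145 / 144 + 1 / 12 * (b + 1 / 12)) * z.2)

theorem qb_eq (b : ℝ) (z : ℝ × ℝ) : qb b z = z.2 * (Mb b z).1 - z.1 * (Mb b z).2 := by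
  unfold qb Mb
  ring

theorem qb_Mb (b : ℝ) (z : ℝ × ℝ) : qb b (Mb b z) = (1 - 5 / 4 * (b - bc)) * qb b z := by
  unfold qb Mb bc
  ring

theorem le_qb : ∀ᶠ b : ℝ in 𝓝 bc, ∀ z : ℝ × ℝ, 1 / 100 * ‖z‖ ^ 2 ≤ qb b z := by
  have h1 : ∀ᶠ b : ℝ in 𝓝 bc, |b - bc| < 1 / 1000 := by
    have := Metric.ball_mem_nhds bc (show (0 : ℝ) < 1 / 1000 by norm_num)
    filter_upwards [this] with b hb
    rwa [Metric.mem_ball, Real.dist_eq] at hb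
  filter_upwards [h1] with b hb z
  have h2 := le_ev_Lq z
  rw [ev_Lq] at h2
  have h3 := norm_sq_le z
  have hb' := abs_lt.1 hb
  have h4 : qb b z = 68 / 405 * z.1 ^ 2 - 353 / 3240 * z.1 * z.2 + 293 / 6480 * z.2 ^ 2 +
      (b - bc) * (4 / 3 * z.1 ^ 2 - 17 / 12 * (z.1 * z.2) + 1 / 12 * z.2 ^ 2) := by
    unfold qb bc
    ring
  have h5 : |4 / 3 * z.1 ^ 2 - 17 / 12 * (z.1 * z.2) + 1 / 12 * z.2 ^ 2| ≤ 3 * ‖z‖ ^ 2 := by
    have e1 : |z.1| ≤ ‖z‖ := by rw [← Real.norm_eq_abs]; exact norm_fst_le z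
    have e2 : |z.2| ≤ ‖z‖ := by rw [← Real.norm_eq_abs]; exact norm_snd_le z
    have e3 : |z.1 ^ 2| ≤ ‖z‖ ^ 2 := by rw [abs_pow]; gcongr
    have e4 : |z.2 ^ 2| ≤ ‖z‖ ^ 2 := by rw [abs_pow]; gcongr
    have e5 : |z.1 * z.2| ≤ ‖z‖ ^ 2 := by
      rw [abs_mul, sq]; gcongr
    rw [abs_le] at e3 e4 e5 ⊢
    constructor <;> linarith [e3.1, e3.2, e4.1, e4.2, e5.1, e5.2]
  have h6 : |(b - bc) * (4 / 3 * z.1 ^ 2 - 17 / 12 * (z.1 * z.2) + 1 / 12 * z.2 ^ 2)| ≤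
      1 / 1000 * (3 * ‖z‖ ^ 2) := by
    rw [abs_mul]
    gcongr
  have h7 := (abs_le.1 h6).1
  rw [h4]
  have h8 : 0 ≤ ‖z‖ ^ 2 := by positivity
  linarith

end Pool.Agent.V5helper20.CM
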